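import Pool.Agent.Helper45.HP.Defs
import Pool.Agent.Helper91.Section.Resid

/-!
# The valuation ring of `ℚ` at `p`
-/

set_option autoImplicit false

namespace Pool.Agent.HP

open Polynomial Pool.Agent.Helper91.Sect WithZero

noncomputable section

section

variable (p : ℕ) [hp : Fact p.Prime]

/-- the valuation ring at `p` -/
def OQ : ValuationSubring ℚ := (Rat.padicValuation p).valuationSubring

theorem OQ_equiv : (Rat.padicValuation p).IsEquiv (OQ p).valuation :=
  Valuation.isEquiv_valuation_valuationSubring _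

theorem OQ_int_lt (n : ℤ) : (OQ p).valuation (n : ℚ) < 1 ↔ (p : ℤ) ∣ n := by
  rw [← (OQ_equiv p).lt_one_iff_lt_one, Rat.padicValuation_cast, Int.padicValuation_lt_one_iff]

theorem OQ_int_eq (n : ℤ) : (OQ p).valuation (n : ℚ) = 1 ↔ ¬ (p : ℤ) ∣ n := by
  rw [← (OQ_equiv p).eq_one_iff_eq_one, Rat.padicValuation_cast, Int.padicValuation_eq_one_iff]

theorem OQ_int_mem (n : ℤ) : (n : ℚ) ∈ OQ p := intCast_mem (OQ p) n

theorem OQ_approx {z : ℚ} (hz : z ∈ OQ p) : ∃ n : ℤ, (OQ p).valuation (z - n) < 1 := by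
  have h1 : ¬ p ∣ z.den := by
    rw [← Rat.padicValuation_le_one_iff]
    exact hz
  have h2 : IsCoprime (z.den : ℤ) (p : ℤ) := by
    rw [Nat.isCoprime_iff_coprime]
    exact ((Nat.Prime.coprime_iff_not_dvd hp.out).2 h1).symm
  obtain ⟨a, b, hab⟩ := h2
  refine ⟨a * z.num, ?_⟩
  have hden : (z.den : ℚ) ≠ 0 := by exact_mod_cast z.den_ne_zero
  have h3 : z - ((a * z.num : ℤ) : ℚ) = ((p * (b * z.num) : ℤ) : ℚ) / ((z.den : ℤ) : ℚ) := by
    have h4 : z * z.den = z.num := Rat.mul_den_eq_num z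
    have h5 : (a : ℚ) * z.den + b * p = 1 := by exact_mod_cast hab
    push_cast
    rw [← h4, eq_div_iff hden]
    linear_combination (z * z.den) * (-h5)
  have h6 : (OQ p).valuation (((z.den : ℤ) : ℚ)) = 1 := by
    rw [OQ_int_eq]
    intro h
    exact h1 (by exact_mod_cast h)
  rw [h3, map_div₀, h6, div_one, OQ_int_lt]
  exact dvd_mul_right _ _

theorem OQ_frob {z : ℚ} (hz : z ∈ OQ p) : (OQ p).valuation (z ^ (p ^ 1) - z) < 1 := by
  obtain ⟨n, hn⟩ := OQ_approx p hz
  rw [pow_one]
  have h1 : z ^ p - z = (z ^ p - (n : ℚ) ^ p) + (((n ^ p - n : ℤ) : ℚ) - (z - n)) := by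
    push_cast; ring
  have h2 : (OQ p).valuation (z ^ p - (n : ℚ) ^ p) < 1 := by
    obtain ⟨c, hc⟩ : ∃ c : OQ p, z ^ p - (n : ℚ) ^ p = (z - n) * c := by
      have h3 : (⟨z, hz⟩ : OQ p) - ⟨n, OQ_int_mem p n⟩ ∣
          (⟨z, hz⟩ : OQ p) ^ p - (⟨n, OQ_int_mem p n⟩ : OQ p) ^ p := sub_dvd_pow_sub_pow _ _ _
      obtain ⟨c, hc⟩ := h3
      exact ⟨c, congrArg Subtype.val hc⟩
    rw [hc, map_mul]
    exact mul_lt_one_of_lt_of_le hn (((OQ p).valuation_le_one_iff _).2 c.2)
  have h3 : (OQ p).valuation (((n ^ p - n : ℤ) : ℚ)) < 1 := by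
    rw [OQ_int_lt]
    rw [← ZMod.intCast_zmod_eq_zero_iff_dvd] 
    push_cast
    rw [ZMod.pow_card, sub_self]
  rw [h1]
  exact (Valuation.map_add _ _ _).trans_lt (max_lt h2
    ((Valuation.map_sub _ _ _).trans_lt (max_lt h3 hn)))

theorem OQ_odd {n u : ℤ} (h1 : (p : ℤ) ∣ n) (h2 : Squarefree n) (hu : ¬ (p : ℤ) ∣ u) (d : ℚ) :
    (OQ p).valuation (((n * u : ℤ) : ℚ)) ≠ (OQ p).valuation d ^ 2 := by
  intro h
  rw [← map_pow, ← (OQ_equiv p).eq_iff] at h
  obtain ⟨m, rfl⟩ := h1
  have hm : ¬ (p : ℤ) ∣ m := by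
    rintro ⟨m', rfl⟩
    have h3 := h2 p ⟨m', by ring⟩
    rw [Int.isUnit_iff] at h3
    have := hp.out.one_lt
    omega
  have hmu : Rat.padicValuation p (((m * u : ℤ) : ℚ)) = 1 := by
    rw [Rat.padicValuation_cast, Int.padicValuation_eq_one_iff]
    intro h3
    rcases (Nat.prime_iff_prime_int.1 hp.out).dvd_or_dvd h3 with h4 | h4
    · exact hm h4
    · exact hu h4
  have h3 : (((p * m * u : ℤ) : ℚ)) = (p : ℚ) * ((m * u : ℤ) : ℚ) := by push_cast; ring
  rw [h3, map_mul, hmu, mul_one, Rat.padicValuation_self, map_pow] at h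
  by_cases hd : Rat.padicValuation p d = 0
  · rw [hd, zero_pow two_ne_zero] at h
    exact WithZero.exp_ne_zero h
  · rw [← WithZero.exp_log hd, ← WithZero.exp_nsmul] at h
    have h4 := congrArg WithZero.log h
    rw [WithZero.log_exp, WithZero.log_exp, nsmul_eq_mul] at h4
    push_cast at h4
    omega

instance OQ_finite : Finite (IsLocalRing.ResidueField (OQ p)) := by
  have h1 : (Set.range fun i : Fin p => ((i : ℕ) : IsLocalRing.ResidueField (OQ p))) = Set.univ := by
    rw [Set.eq_univ_iff_forall]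
    intro c
    obtain ⟨z, rfl⟩ := IsLocalRing.residue_surjective c
    obtain ⟨n, hn⟩ := OQ_approx p z.2
    have hp0 : (p : ℤ) ≠ 0 := by exact_mod_cast hp.out.ne_zero
    have h2 : 0 ≤ n % p := Int.emod_nonneg n hp0
    have h3 : n % p < p := Int.emod_lt_of_pos n (by exact_mod_cast hp.out.pos)
    refine ⟨⟨(n % p).toNat, by omega⟩, ?_⟩
    change (((n % p).toNat : ℕ) : IsLocalRing.ResidueField (OQ p)) = IsLocalRing.residue (OQ p) z
    rw [← map_natCast (IsLocalRing.residue (OQ p)), ← sub_eq_zero, ← map_sub,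
      IsLocalRing.residue_eq_zero_iff, (OQ p).valuation_lt_one_iff]
    have h4 : ((((((n % p).toNat : ℕ) : OQ p) - z : OQ p)) : ℚ) =
        -((((p * (n / p) : ℤ)) : ℚ) + (z - n)) := by
      have h5 : (((n % p).toNat : ℕ) : ℚ) = ((n % p : ℤ) : ℚ) := by
        rw [← Int.cast_natCast, Int.toNat_of_nonneg h2]
      have h6 : n % p = n - p * (n / p) := by
        have := Int.mul_ediv_add_emod n p
        omega
      push_cast
      rw [h5, h6]
      push_cast
      ring
    rw [h4, Valuation.map_neg]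
    refine (Valuation.map_add _ _ _).trans_lt (max_lt ?_ hn)
    rw [OQ_int_lt]
    exact dvd_mul_right _ _
  have h2 : (Set.univ : Set (IsLocalRing.ResidueField (OQ p))).Finite := by
    rw [← h1]
    exact Set.finite_range _
  exact Set.finite_univ_iff.1 h2

end

end

/-- the properties of the valuation ring of `ℚ` at `p` which are used -/
structure PLike {k : Type} [Field k] (O : ValuationSubring k) (p : ℕ) : Prop where
  lt : ∀ n : ℤ, O.valuation (n : k) < 1 ↔ (p : ℤ) ∣ n
  approx : ∀ z : k, z ∈ O → ∃ n : ℤ, O.valuation (z - n) < 1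
  frob : ∀ z : k, z ∈ O → O.valuation (z ^ (p ^ 1) - z) < 1
  odd : ∀ n u : ℤ, (p : ℤ) ∣ n → Squarefree n → ¬ (p : ℤ) ∣ u → ∀ d : k,
    O.valuation (((n * u : ℤ) : k)) ≠ O.valuation d ^ 2
  fin : Finite (IsLocalRing.ResidueField O)

theorem pLike_OQ (p : ℕ) [Fact p.Prime] : PLike (OQ p) p :=
  ⟨OQ_int_lt p, fun _ hz => OQ_approx p hz, fun _ hz => OQ_frob p hz,
    fun _ _ h1 h2 h3 d => OQ_odd p h1 h2 h3 d, OQ_finite p⟩

theorem PLike.eq_one {k : Type} [Field k] {O : ValuationSubring k} {p : ℕ} (h : PLike O p) (n : ℤ) :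
    O.valuation (n : k) = 1 ↔ ¬ (p : ℤ) ∣ n := by
  rw [← h.lt n, not_lt]
  have h1 : O.valuation (n : k) ≤ 1 := (O.valuation_le_one_iff _).2 (intCast_mem O n)
  exact ⟨fun h2 => h2.ge, fun h2 => le_antisymm h1 h2⟩

section Fixed

universe u

variable {k C : Type u} [Field k] [Field C] [Algebra k C] {O : ValuationSubring k}

/-- Elements fixed by the decomposition group reduce to elements of the residue field of `k`. -/
theorem exists_residue_of_fixed [IsGalois k C] [IsAlgClosed C] [Finite (IsLocalRing.ResidueField O)]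
    (Q : Ideal (integralClosure O C)) [hQ : Q.IsPrime] (hA : Above Q) (rb : integralClosure O C)
    (hfix : ∀ σ : C ≃ₐ[k] C, InD Q σ → σ (rb : C) = rb) :
    ∃ c : O, rb - algebraMap O (integralClosure O C) c ∈ Q := by
  classical
  have hQm : Q.IsMaximal := above_isMaximal hA
  let _ : Field (integralClosure O C ⧸ Q) := Ideal.Quotient.field Q
  have hac : IsAlgClosed (integralClosure O C ⧸ Q) := isAlgClosed_quotient
  let _ : Algebra (IsLocalRing.ResidueField O) (integralClosure O C ⧸ Q) := (resHom hA).toAlgebra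
  have hmap : ∀ c : O, algebraMap (IsLocalRing.ResidueField O) (integralClosure O C ⧸ Q)
      (IsLocalRing.residue O c) = Ideal.Quotient.mk Q (algebraMap O (integralClosure O C) c) :=
    fun _ => rfl
  have hcomp : (algebraMap (IsLocalRing.ResidueField O) (integralClosure O C ⧸ Q)).comp
      (IsLocalRing.residue O) =
      (Ideal.Quotient.mk Q).comp (algebraMap O (integralClosure O C)) := rfl
  have halg : Algebra.IsAlgebraic (IsLocalRing.ResidueField O) (integralClosure O C ⧸ Q) := by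
    refine ⟨fun x => ?_⟩
    obtain ⟨b, rfl⟩ := Ideal.Quotient.mk_surjective x
    have h1 : IsIntegral O b := Algebra.IsIntegral.isIntegral b
    obtain ⟨g, hg, hgb⟩ := h1
    refine IsIntegral.isAlgebraic ⟨g.map (IsLocalRing.residue O), hg.map _, ?_⟩
    rw [eval₂_map, hcomp, ← hom_eval₂, hgb, map_zero]
  have hcl : IsAlgClosure (IsLocalRing.ResidueField O) (integralClosure O C ⧸ Q) := ⟨hac, halg⟩
  have hnorm : Normal (IsLocalRing.ResidueField O) (integralClosure O C ⧸ Q) :=
    IsAlgClosure.normal _ _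
  have hperf : PerfectField (IsLocalRing.ResidueField O) := inferInstance
  set x := Ideal.Quotient.mk Q rb with hx
  have hxsep : IsSeparable (IsLocalRing.ResidueField O) x :=
    (Algebra.IsAlgebraic.isSeparable_of_perfectField).isSeparable' x
  have hxbot : x ∈ (⊥ : Subalgebra (IsLocalRing.ResidueField O) (integralClosure O C ⧸ Q)) := by
    by_contra hcon
    rw [notMem_iff_exists_ne_and_isConjRoot hxsep (IsAlgClosed.splits _)] at hcon
    obtain ⟨y, hne, hy⟩ := hcon
    rw [isConjRoot_iff_exists_algEquiv] at hy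
    obtain ⟨φ, hφ⟩ := hy
    -- lift the inverse
    obtain ⟨σ, -, hσD, hσ⟩ := exists_lift (⊤ : Subgroup (C ≃ₐ[k] C)) isClosed_univ Q
      (φ.symm : (integralClosure O C ⧸ Q) ≃+* (integralClosure O C ⧸ Q)) (by
        intro b hb
        have h1 : ∀ g : C ≃ₐ[k] C, g (b : C) = b := fun g =>
          congrArg Subtype.val (hb g (Subgroup.mem_top g))
        obtain ⟨c, hc⟩ := (InfiniteGalois.mem_range_algebraMap_iff_fixed (k := k) (b : C)).2 h1
        have hcO : c ∈ O := by
          have h2 : IsIntegral O (algebraMap k C c) := by rw [hc]; exact b.2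
          have h3 : IsIntegral O c := by
            rwa [isIntegral_algebraMap_iff (algebraMap k C).injective] at h2
          obtain ⟨c', hc'⟩ := IsIntegrallyClosed.algebraMap_eq_of_integral h3
          rw [← hc']; exact c'.2
        have h4 : b = algebraMap O (integralClosure O C) ⟨c, hcO⟩ := Subtype.ext hc.symm
        rw [h4, ← hmap]
        exact φ.symm.commutes _)
    have h1 : Ideal.Quotient.mk Q (σ • rb) = φ.symm x := hσ rb
    have h2 : σ • rb = rb := Subtype.ext (hfix σ hσD)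
    rw [h2] at h1
    apply hne
    have h3 : φ x = x := by
      conv_lhs => rw [hx, h1]
      exact φ.apply_symm_apply x
    have h4 : φ.symm x = y := by rw [← hφ]; exact φ.symm_apply_apply y
    rw [← h4, ← h1]
  rw [Algebra.mem_bot] at hxbot
  obtain ⟨c, hc⟩ := hxbot
  obtain ⟨c, rfl⟩ := IsLocalRing.residue_surjective c
  refine ⟨c, ?_⟩
  rw [hmap, hx, eq_comm, ← sub_eq_zero, ← map_sub, Ideal.Quotient.eq_zero_iff_mem] at hc
  exact hc

end Fixed

end Pool.Agent.HP
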