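import Pool.Agent.Helper45.HP.Local5

/-!
# Block A: sections give the arithmetic condition
-/

set_option autoImplicit false

namespace Pool.Agent.HP

open Polynomial Pool.Agent.Helper91.Sect

section Bezout

theorem exists_int_mul (a : ℚ[X]) : ∃ (m : ℤ) (A : ℤ[X]), m ≠ 0 ∧
    A.map (Int.castRingHom ℚ) = C (m : ℚ) * a := by
  obtain ⟨b, hb0, hb⟩ := IsLocalization.integerNormalization_spec (nonZeroDivisors ℤ) a
  refine ⟨b, IsLocalization.integerNormalization (nonZeroDivisors ℤ) a,
    nonZeroDivisors.ne_zero hb0, ?_⟩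
  rw [← algebraMap_int_eq, hb]
  ext n
  simp

theorem exists_bezout (F : ℤ[X]) (hF : (F.map (Int.castRingHom ℚ)).Separable) :
    ∃ (U V : ℤ[X]) (m : ℤ), m ≠ 0 ∧ U * F + V * derivative F = C m := by
  obtain ⟨a, b, hab⟩ := hF
  obtain ⟨m, A, hm, hA⟩ := exists_int_mul a
  obtain ⟨n, B, hn, hB⟩ := exists_int_mul b
  refine ⟨C n * A, C m * B, n * m, mul_ne_zero hn hm, ?_⟩
  apply map_injective (Int.castRingHom ℚ) Int.cast_injective
  rw [Polynomial.map_add, Polynomial.map_mul, Polynomial.map_mul, Polynomial.map_mul,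
    Polynomial.map_mul, map_C, map_C, map_C, hA, hB, ← derivative_map]
  have h1 : (Int.castRingHom ℚ) (n * m) = (n : ℚ) * m := by simp
  rw [h1, C_mul]
  simp only [eq_intCast]
  linear_combination (C (n : ℚ) * C (m : ℚ)) * hab

end Bezout

section

variable {k K : Type} [Field k] [Field K] [Algebra k K] [CharZero k]

/-- the roots of the factors -/
theorem exists_roots (q : Fin 3 → ℤ[X]) (hdeg : ∀ i, (q i).natDegree = 2)
    (hsep : ((∏ i, q i).map (Int.castRingHom k)).Separable) :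
    ∃ root : Ix → kbar k K, Function.Injective root ∧
      ∀ i, (q i).map (Int.castRingHom (kbar k K)) =
        C (((q i).leadingCoeff : ℤ) : kbar k K) * ((X - C (root (i, 0))) * (X - C (root (i, 1)))) := by
  have hinjC : Function.Injective (Int.castRingHom (kbar k K)) := Int.cast_injective
  have h1 : ∀ i, ∃ a b : kbar k K, (q i).map (Int.castRingHom (kbar k K)) =
      C (((q i).leadingCoeff : ℤ) : kbar k K) * ((X - C a) * (X - C b)) := by
    intro i
    have hs : ((q i).map (Int.castRingHom (kbar k K))).Splits := IsAlgClosed.splits _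
    have hcard := hs.natDegree_eq_card_roots
    rw [natDegree_map_eq_of_injective hinjC, hdeg, eq_comm, Multiset.card_eq_two] at hcard
    obtain ⟨a, b, hab⟩ := hcard
    refine ⟨a, b, ?_⟩
    have h2 := hs.eq_prod_roots
    rw [hab, leadingCoeff_map_of_injective hinjC] at h2
    rw [h2]
    simp
  choose a b hab using h1
  obtain ⟨root, hr0, hr1⟩ : ∃ root : Ix → kbar k K, (∀ i, root (i, 0) = a i) ∧
      (∀ i, root (i, 1) = b i) :=
    ⟨fun t => if t.2 = 0 then a t.1 else b t.1, fun i => by simp, fun i => by simp⟩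
  refine ⟨root, ?_, fun i => by rw [hr0, hr1, hab]⟩
  have h2 : (∏ i, q i).map (Int.castRingHom (kbar k K)) =
      (∏ i, C (((q i).leadingCoeff : ℤ) : kbar k K)) * ∏ t, (X - C (root t)) := by
    rw [Polynomial.map_prod, Fintype.prod_prod_type, ← Finset.prod_mul_distrib]
    refine Finset.prod_congr rfl fun i _ => ?_
    rw [Fin.prod_univ_two, hr0, hr1, hab]
  have h3 : ((∏ i, q i).map (Int.castRingHom (kbar k K))).Separable := by
    have h4 := hsep.map (f := algebraMap k (kbar k K))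
    rw [Polynomial.map_map] at h4
    rwa [RingHom.ext_int ((algebraMap k (kbar k K)).comp (Int.castRingHom k))
      (Int.castRingHom (kbar k K))] at h4
  rw [h2] at h3
  exact separable_prod_X_sub_C_iff.1 h3.of_mul_right

/-- The data attached to a section. -/
theorem exists_data (s : GaloisSection k K) {x y : K} (hx : Transcendental k x)
    (hsf : ∀ e : k, e ≠ 0 → ∃ D : ℤ, Squarefree D ∧ ∃ t : k, t ≠ 0 ∧ e = D * t ^ 2)
    (q : Fin 3 → ℤ[X]) (hdeg : ∀ i, (q i).natDegree = 2)
    (hsep : ((∏ i, q i).map (Int.castRingHom k)).Separable) {c : ℤ} (hc : Squarefree c)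
    (hxy : (c : K) * y ^ 2 = aeval x (∏ i, q i)) :
    ∃ d : Data s x y q c, ∀ i, (q i).leadingCoeff = d.lc i := by
  classical
  have hczK : CharZero (Kur k K) :=
    charZero_of_injective_algebraMap ((algebraMap K (Kur k K)).comp (algebraMap k K)).injective
  obtain ⟨root, hinj, hroot⟩ := exists_roots (K := K) q hdeg hsep
  have hsqrt : ∀ r : kbar k K, ∃ v : AlgebraicClosure K,
      v ^ 2 = algebraMap K (AlgebraicClosure K) x - (r : AlgebraicClosure K) :=
    fun r => IsAlgClosed.exists_pow_nat_eq _ two_pos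
  choose v hv using hsqrt
  have hlc0 : ∀ i, (q i).leadingCoeff ≠ 0 := by
    intro i h
    rw [leadingCoeff_eq_zero] at h
    have := hdeg i
    rw [h, natDegree_zero] at this
    omega
  let P : Pre k x y q c :=
    { htr := hx
      hc := hc
      hxy := hxy
      root := root
      hinj := hinj
      lc := fun i => (q i).leadingCoeff
      hlc0 := hlc0
      hq := hroot
      v := v
      hv := hv }
  have hmem : ∀ t, root t ∈ P.R := fun t => (P.mem_R _).2 ⟨t, rfl⟩
  have hWK : ∀ i, v (root (i, 0)) * v (root (i, 1)) ∈ Kur k K := fun i =>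
    prod_mem_Kur P.a0_ne P.c_ne P.heq hv (hmem (i, 0)) (hmem (i, 1))
  obtain ⟨W, hW⟩ : ∃ W : Fin 3 → Kur k K,
      ∀ i, (W i : AlgebraicClosure K) = v (root (i, 0)) * v (root (i, 1)) :=
    ⟨fun i => ⟨_, hWK i⟩, fun i => rfl⟩
  have hW0 : ∀ i, W i ≠ 0 := by
    intro i h0
    have h1 : (W i : AlgebraicClosure K) = 0 := by rw [h0]; rfl
    rw [hW] at h1
    exact mul_ne_zero (P.hv0 _) (P.hv0 _) h1
  -- the square of `W i`
  have hWsq : ∀ i, ((((q i).leadingCoeff : ℤ) : Kur k K)) * W i ^ 2 =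
      algebraMap K (Kur k K) (aeval x (q i)) := by
    intro i
    apply Subtype.ext
    change (((((q i).leadingCoeff : ℤ) : Kur k K) : AlgebraicClosure K)) *
      (W i : AlgebraicClosure K) ^ 2 = algebraMap K (AlgebraicClosure K) (aeval x (q i))
    rw [hW, mul_pow, hv, hv, ← aeval_algebraMap_apply]
    have h4 := congrArg (Polynomial.map (algebraMap (kbar k K) (AlgebraicClosure K))) (hroot i)
    rw [Polynomial.map_map, Polynomial.map_mul, Polynomial.map_mul, Polynomial.map_sub,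
      Polynomial.map_sub, map_C, map_C, map_C, map_X, map_intCast] at h4
    have h5 := congrArg (eval (algebraMap K (AlgebraicClosure K) x)) h4
    rw [RingHom.ext_int ((algebraMap (kbar k K) (AlgebraicClosure K)).comp
      (Int.castRingHom (kbar k K))) (Int.castRingHom _), eval_map] at h5
    simp only [eval_mul, eval_C, eval_sub, eval_X] at h5
    rw [aeval_def]
    refine Eq.trans ?_ h5.symm
    push_cast
    rfl
  have hlcK : ∀ i, ((((q i).leadingCoeff : ℤ) : Kur k K)) ≠ 0 := fun i => by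
    exact_mod_cast hlc0 i
  have hsgn : ∀ i (g : Gk k K), s.toHom g (W i) = W i ∨ s.toHom g (W i) = -W i := by
    intro i g
    refine sq_eq_sq_iff_eq_or_eq_neg.1 ?_
    apply mul_left_cancel₀ (hlcK i)
    rw [hWsq]
    have h1 := congrArg (s.toHom g) (hWsq i)
    rw [map_mul, map_pow, map_intCast, AlgEquiv.commutes] at h1
    exact h1
  have hz : ∀ i, ∃ (z : kbar k K) (D : ℤ), Squarefree D ∧
      z ^ 2 = ((D * (q i).leadingCoeff : ℤ) : kbar k K) ∧
      ∀ g : Gk k K, s.toHom g (toKur k K z * W i) = toKur k K z * W i := by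
    intro i
    obtain ⟨z, hz0, ⟨e, he⟩, hfix⟩ := exists_twist s (hW0 i) (hsgn i)
    have hlck : (((q i).leadingCoeff : ℤ) : k) ≠ 0 := by exact_mod_cast hlc0 i
    have he0 : e ≠ 0 := by
      rintro rfl
      rw [map_zero] at he
      exact pow_ne_zero 2 hz0 he.symm
    obtain ⟨D, hD, t, ht, heD⟩ := hsf (e / ((q i).leadingCoeff : ℤ)) (div_ne_zero he0 hlck)
    have ht' : algebraMap k (kbar k K) t ≠ 0 := (_root_.map_ne_zero _).2 ht
    refine ⟨z / algebraMap k (kbar k K) t, D, hD, ?_, ?_⟩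
    · rw [div_eq_iff hlck] at heD
      rw [div_pow, ← he, heD, div_eq_iff (pow_ne_zero 2 ht'), map_mul, map_mul, map_pow,
        map_intCast, map_intCast]
      push_cast
      ring
    · intro g
      have h1 : toKur k K (z / algebraMap k (kbar k K) t) * W i =
          (toKur k K (algebraMap k (kbar k K) t))⁻¹ * (toKur k K z * W i) := by
        rw [map_div₀]
        ring
      rw [h1, map_mul, hfix g, map_inv₀, section_toKur, AlgEquiv.commutes]
  choose z D hD hz2 hfix using hz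
  exact ⟨{ toPre := P, W := W, hW := hW, z := z, D := D, hD := hD, hz := hz2, hfix := hfix },
    fun i => rfl⟩

end

/-- **Block A.** -/
theorem stmtA_aux {k : Type} [Field k] [CharZero k]
    (hsf : ∀ e : k, e ≠ 0 → ∃ D : ℤ, Squarefree D ∧ ∃ t : k, t ≠ 0 ∧ e = D * t ^ 2)
    (hO : ∀ p : ℕ, p.Prime → ∃ O : ValuationSubring k, PLike O p)
    (q : Fin 3 → ℤ[X]) (hdeg : ∀ i, (q i).natDegree = 2)
    (hsepQ : ((∏ i, q i).map (Int.castRingHom ℚ)).Separable)
    (hsep : ((∏ i, q i).map (Int.castRingHom k)).Separable) :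
    ∃ M : ℕ, M ≠ 0 ∧ ∀ c : ℤ, Squarefree c →
      (∃ (K : Type) (_ : Field K) (_ : Algebra k K) (x y : K), Transcendental k x ∧
        y ^ 2 = (c : K) * aeval x (∏ i, q i) ∧ Nonempty (GaloisSection k K)) → Bad q M c := by
  obtain ⟨U, V, m, hm, hUV⟩ := exists_bezout _ hsepQ
  have hlc0 : ∀ i, (q i).leadingCoeff ≠ 0 := by
    intro i h
    rw [leadingCoeff_eq_zero] at h
    have := hdeg i
    rw [h, natDegree_zero] at this
    omega
  refine ⟨2 * m.natAbs * ∏ i, (q i).leadingCoeff.natAbs, ?_, ?_⟩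
  · refine mul_ne_zero (mul_ne_zero two_ne_zero (Int.natAbs_ne_zero.2 hm)) ?_
    exact Finset.prod_ne_zero_iff.2 fun i _ => Int.natAbs_ne_zero.2 (hlc0 i)
  rintro c hc ⟨K, hF, hA, x, y, hx, hxy, ⟨s⟩⟩
  have hczK : CharZero K := charZero_of_injective_algebraMap (algebraMap k K).injective
  have hcK : (c : K) ≠ 0 := by exact_mod_cast hc.ne_zero
  have hxy' : (c : K) * (y / c) ^ 2 = aeval x (∏ i, q i) := by
    rw [div_pow, hxy]
    field_simp
  obtain ⟨d, hd⟩ := exists_data s hx hsf q hdeg hsep hc hxy'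
  have hloc : ∀ p : ℕ, p.Prime → ¬ p ∣ 2 * m.natAbs * ∏ i, (q i).leadingCoeff.natAbs →
      ∃ O : ValuationSubring k, PLike O p ∧ Nat.Coprime 2 p ∧ (∀ i, ¬ (p : ℤ) ∣ d.lc i) ∧
        Prime (p : ℤ) ∧ Nonempty (Loc d O p) := by
    intro p hp hpM
    have hpf : Fact p.Prime := ⟨hp⟩
    obtain ⟨O, hO'⟩ := hO p hp
    have hp2 : p ≠ 2 := by
      rintro rfl
      exact hpM ((dvd_mul_right 2 _).mul_right _)
    have hpm : ¬ (p : ℤ) ∣ m := fun h => hpM (((Int.natCast_dvd.1 h).mul_left _).mul_right _)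
    have hpa : ∀ i, ¬ (p : ℤ) ∣ d.lc i := by
      intro i h
      rw [← hd i] at h
      have h1 : (q i).leadingCoeff.natAbs ∣ ∏ i, (q i).leadingCoeff.natAbs :=
        Finset.dvd_prod_of_mem (fun i => (q i).leadingCoeff.natAbs) (Finset.mem_univ i)
      exact hpM (((Int.natCast_dvd.1 h).trans h1).mul_left _)
    exact ⟨O, hO', (Nat.coprime_primes Nat.prime_two hp).2 (Ne.symm hp2), hpa,
      Nat.prime_iff_prime_int.1 hp, exists_loc d hO' hp2 hd hpa ⟨U, V, m, hpm, hUV⟩⟩
  refine ⟨d.D, d.hD, ?_, ?_⟩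
  · intro i p hp hpD
    by_contra hcon
    push Not at hcon
    obtain ⟨O, hO', hp2, hpa, hpp, ⟨L⟩⟩ := hloc p hp hcon.2
    exact not_dvd_D d hO' hp2 hpa hpp L hcon.1 i hpD
  · intro p hp hpM hpc
    obtain ⟨O, hO', hp2, hpa, hpp, ⟨L⟩⟩ := hloc p hp hpM
    exact zmod_step d hO' hp hp2 hpa hpp L hpc

theorem stmtA : StmtA := by
  intro q hdeg hsep
  refine stmtA_aux (k := ℚ) exists_squarefree (fun p hp => ?_) q hdeg hsep hsep
  have hpf : Fact p.Prime := ⟨hp⟩
  exact ⟨OQ p, pLike_OQ p⟩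

end Pool.Agent.HP
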