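import Pool.Agent.Helper45.HP.A
import Pool.Agent.Helper22.HP.Count
import Pool.Agent.Helper71.HP.BT
import Pool.Agent.Helper47.HP.E
import Pool.Agent.Helper47.HP.C1
import Pool.Agent.Helper21.HP.Mert
import Pool.Agent.Helper21.HP.Char
import Pool.Agent.Helper99.HP.B
import Pool.Agent.Helper99.HP.Final

/-!
# Assembly of the blocks
-/

set_option autoImplicit false

namespace Pool.Agent.HP

theorem stmtFinal : StmtFinal :=
  final stmtA (blockB (count Pool.Agent.Helper21.HP.mert bt rec stmtE1 stmtE2) Pool.Agent.Helper21.HP.mert Pool.Agent.Helper21.HP.char) stmtC1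

end Pool.Agent.HP
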