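import Mathlib

/-!
# Six signs without two plus and two minus signs
-/

set_option autoImplicit false

namespace Pool.Agent.HP

theorem comb {ι : Type*} [Fintype ι] (h6 : Fintype.card ι = 6) (e : ι → ℤˣ)
    (hno : ∀ a b c d : ι, a ≠ b → c ≠ d → e a = 1 → e b = 1 → e c = -1 → e d = -1 → False) :
    (∏ i, e i = 1 → ∀ a b, e a = e b) ∧ (∏ i, e i = -1 → ∃ a, ∀ b, b ≠ a → e b = -e a) := by
  classical
  set P := Finset.univ.filter fun i => e i = 1 with hP
  set M := Finset.univ.filter fun i => e i = -1 with hM
  have hne : ∀ i, e i ≠ 1 ↔ e i = -1 := by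
    intro i
    rcases Int.units_eq_one_or (e i) with h | h <;> simp [h]
  have hcard : P.card + M.card = 6 := by
    rw [← h6, ← Finset.card_univ, ← Finset.card_filter_add_card_filter_not (s := Finset.univ)
      (fun i => e i = 1)]
    congr 2
    rw [hM]
    exact Finset.filter_congr fun i _ => (hne i).symm
  have hprod : ∏ i, e i = (-1) ^ M.card := by
    rw [← Finset.prod_filter_mul_prod_filter_not Finset.univ (fun i => e i = 1)]
    rw [Finset.prod_eq_one (fun i hi => (Finset.mem_filter.1 hi).2), one_mul]
    have h1 : (Finset.univ.filter fun i => ¬ e i = 1) = M := by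
      rw [hM]
      exact Finset.filter_congr fun i _ => hne i
    rw [h1, Finset.prod_congr rfl (fun i hi => (Finset.mem_filter.1 hi).2), Finset.prod_const]
  have hsmall : P.card ≤ 1 ∨ M.card ≤ 1 := by
    by_contra hcon
    push Not at hcon
    obtain ⟨a, ha, b, hb, hab⟩ := Finset.one_lt_card.1 hcon.1
    obtain ⟨c, hc, d, hd, hcd⟩ := Finset.one_lt_card.1 hcon.2
    exact hno a b c d hab hcd (Finset.mem_filter.1 ha).2 (Finset.mem_filter.1 hb).2
      (Finset.mem_filter.1 hc).2 (Finset.mem_filter.1 hd).2
  have hmemP : ∀ i, e i = 1 ↔ i ∈ P := fun i => by simp [hP]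
  have hmemM : ∀ i, e i = -1 ↔ i ∈ M := fun i => by simp [hM]
  constructor
  · intro h1 a b
    rw [hprod] at h1
    have heven : Even M.card := by
      rcases Nat.even_or_odd M.card with h | h
      · exact h
      · rw [h.neg_one_pow] at h1
        exact absurd h1 (by decide)
    rcases hsmall with h | h
    · have hP0 : P.card = 0 := by
        obtain ⟨t, ht⟩ := heven
        omega
      rw [Finset.card_eq_zero] at hP0
      have h2 : ∀ i, e i = -1 := fun i => (hne i).1 fun h3 => by
        have := (hmemP i).1 h3
        rw [hP0] at this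
        simp at this
      rw [h2, h2]
    · have hM0 : M.card = 0 := by
        obtain ⟨t, ht⟩ := heven
        omega
      rw [Finset.card_eq_zero] at hM0
      have h2 : ∀ i, e i = 1 := fun i => by
        by_contra h3
        have := (hmemM i).1 ((hne i).1 h3)
        rw [hM0] at this
        simp at this
      rw [h2, h2]
  · intro h1
    rw [hprod] at h1
    have hodd : Odd M.card := by
      rcases Nat.even_or_odd M.card with h | h
      · rw [h.neg_one_pow] at h1
        exact absurd h1 (by decide)
      · exact h
    obtain ⟨t, ht⟩ := hodd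
    rcases hsmall with h | h
    · have hP1 : P.card = 1 := by omega
      obtain ⟨a, ha⟩ := Finset.card_eq_one.1 hP1
      refine ⟨a, fun b hb => ?_⟩
      have h2 : e a = 1 := (hmemP a).2 (by rw [ha]; simp)
      rw [h2]
      refine (hne b).1 fun h3 => hb ?_
      have := (hmemP b).1 h3
      rw [ha] at this
      simpa using this
    · have hM1 : M.card = 1 := by omega
      obtain ⟨a, ha⟩ := Finset.card_eq_one.1 hM1
      refine ⟨a, fun b hb => ?_⟩
      have h2 : e a = -1 := (hmemM a).2 (by rw [ha]; simp)
      rw [h2, neg_neg]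
      by_contra h3
      apply hb
      have := (hmemM b).1 ((hne b).1 h3)
      rw [ha] at this
      simpa using this

end Pool.Agent.HP
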