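import Pool.Agent.Helper91.Section.Basic

/-!
# Almost all quadratic twists of a genus 2 curve over `ℚ` (project HP, MP_e66f84_ag)

Definitions and the statements of the blocks.

Goal: `f ∈ ℤ[X]` separable of degree `6` without rational root.  For all integers `c` outside a set
of natural density zero no curve which maps onto `y² = c f(x)` has a Galois section.
-/

set_option autoImplicit false

namespace Pool.Agent.HP

open Polynomial Filter Topology Pool.Agent.Helper91.Sect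

/-- some curve with function field `K` which maps onto `y² = c f(x)` has a Galois section -/
def HasSection (f : ℤ[X]) (c : ℤ) : Prop :=
  ∃ (K : Type) (_ : Field K) (_ : Algebra ℚ K) (x y : K), Transcendental ℚ x ∧
    y ^ 2 = (c : K) * aeval x f ∧ Nonempty (GaloisSection ℚ K)

/-- the discriminant of a quadratic polynomial -/
def disc (q : ℤ[X]) : ℤ := q.coeff 1 ^ 2 - 4 * q.coeff 2 * q.coeff 0

/-- The arithmetic condition on `c` which follows from the existence of a section. -/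
def Bad (q : Fin 3 → ℤ[X]) (M : ℕ) (c : ℤ) : Prop :=
  ∃ D : Fin 3 → ℤ, (∀ i, Squarefree (D i)) ∧
    (∀ i, ∀ p : ℕ, p.Prime → (p : ℤ) ∣ D i → (p : ℤ) ∣ c ∨ p ∣ M) ∧
    ∀ p : ℕ, p.Prime → ¬ p ∣ M → (p : ℤ) ∣ c →
      ∃ i, (∀ j, (p : ℤ) ∣ D j ↔ j = i) ∧
        ∃ r : ZMod p, aeval r (q i) = 0 ∧
          ∀ j, j ≠ i → IsSquare ((D j : ZMod p) * aeval r (q j))

/-- BLOCK A (helper45): sections give the arithmetic condition. -/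
def StmtA : Prop :=
  ∀ q : Fin 3 → ℤ[X], (∀ i, (q i).natDegree = 2) →
    ((∏ i, q i).map (Int.castRingHom ℚ)).Separable →
    ∃ M : ℕ, M ≠ 0 ∧ ∀ c : ℤ, Squarefree c → HasSection (∏ i, q i) c → Bad q M c

/-- BLOCK B: the condition holds for a set of density zero only. -/
def StmtB : Prop :=
  ∀ q : Fin 3 → ℤ[X], (∀ i, (q i).natDegree = 2) →
    ((∏ i, q i).map (Int.castRingHom ℚ)).Separable →
    (∀ i, ¬ IsSquare (disc (q i))) → IsSquare (∏ i, disc (q i)) →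
    ∀ M : ℕ, M ≠ 0 → ∀ ε : ℝ, 0 < ε → ∀ᶠ X : ℕ in atTop, ∀ S : Finset ℕ,
      (∀ c ∈ S, 0 < c ∧ c ≤ X ∧ Squarefree c ∧ Bad q M (c : ℤ)) → (S.card : ℝ) ≤ ε * X

/-! ## The counting problem -/

/-- the possible local behaviour at a prime which divides `c`: the index `i` of the factor with a
root, and the quadratic characters of the other factors at the root -/
abbrev Opt := Fin 3 × (Fin 3 → ℤˣ)

/-- the product of the prime factors of `c` of type `j` -/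
def part (M : ℕ) (t : ℕ → Opt) (c : ℕ) (j : Fin 3) : ℕ :=
  ∏ p ∈ c.primeFactors.filter (fun p => ¬ p ∣ M ∧ (t p).1 = j), p

/-- `c` is bad for the sets of options `V p` -/
def ABad (M : ℕ) (V : ℕ → Finset Opt) (c : ℕ) : Prop :=
  ∃ t : ℕ → Opt, ∀ p ∈ c.primeFactors, ¬ p ∣ M →
    t p ∈ V p ∧ ∀ j, j ≠ (t p).1 → jacobiSym (part M t c j : ℕ) p = ((t p).2 j : ℤ)

/-- the primes up to `x` which do not divide `M` -/
def PP (M x : ℕ) : Finset ℕ := (Finset.range (x + 1)).filter fun p => p.Prime ∧ ¬ p ∣ M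

/-- BLOCK B3: the counting theorem. -/
def StmtCount : Prop :=
  ∀ M : ℕ, M ≠ 0 → 2 ∣ M → ∀ V : ℕ → Finset Opt,
    Tendsto (fun x : ℕ => ∑ p ∈ PP M x, (1 - ((V p).card : ℝ) / 4) / p) atTop atTop →
    ∀ Qs : Fin 3 → Set ℕ,
    (∀ j, ∀ p ∈ Qs j, p.Prime ∧ ¬ p ∣ M ∧ ∀ o ∈ V p, o.1 = j) →
    (∀ j, ∀ A : ℝ, ∃ n : ℕ, 0 < n ∧ ∀ᶠ X : ℕ in atTop, ∀ S : Finset ℕ,
      (∀ p, p ∈ S ↔ p ∈ Qs j ∧ X < p ^ n ∧ p ^ 2 ≤ X) → A ≤ ∑ p ∈ S, (1 : ℝ) / p) →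
    ∀ ε : ℝ, 0 < ε → ∀ᶠ X : ℕ in atTop, ∀ S : Finset ℕ,
      (∀ c ∈ S, 0 < c ∧ c ≤ X ∧ Squarefree c ∧ ABad M V c) → (S.card : ℝ) ≤ ε * X

/-- BLOCK B1c: Brun-Titchmarsh for prescribed quadratic characters (from
`Pool.Agent.Helper5.RS.bt_ap`). -/
def StmtBT : Prop :=
  ∃ C : ℝ, 0 < C ∧ ∀ m : ℕ, Squarefree m → Odd m → ∀ η : ℕ → ℤ, ∀ u h : ℕ, 2 ≤ h → m ^ 2 ≤ h →
    ∀ S : Finset ℕ, (∀ Q ∈ S, Q.Prime ∧ u < Q ∧ Q ≤ u + h ∧
      ∀ p ∈ m.primeFactors, jacobiSym Q p = η p) →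
    (∀ p ∈ m.primeFactors, η p = 1 ∨ η p = -1) →
    (S.card : ℝ) ≤ C * (1 / 2) ^ m.primeFactors.card * (h / Real.log h)

/-- BLOCK B1d: the sum of the reciprocals. -/
def StmtRec : Prop :=
  ∃ C : ℝ, 0 < C ∧ ∀ m : ℕ, Squarefree m → Odd m → ∀ η : ℕ → ℤ, ∀ z X : ℕ, 2 ≤ z → m ^ 2 ≤ z →
    z ≤ X → ∀ S : Finset ℕ, (∀ Q ∈ S, Q.Prime ∧ z < Q ∧ Q ≤ X ∧
      ∀ p ∈ m.primeFactors, jacobiSym Q p = η p) →
    (∀ p ∈ m.primeFactors, η p = 1 ∨ η p = -1) →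
    ∑ Q ∈ S, (1 : ℝ) / Q ≤ C * (1 / 2) ^ m.primeFactors.card * (Real.log X / Real.log z)

/-- BLOCK B1a: Mertens. -/
def StmtMert : Prop :=
  ∃ C : ℝ, ∀ x : ℕ, 2 ≤ x →
    |∑ p ∈ PP 1 x, (1 : ℝ) / p - Real.log (Real.log x)| ≤ C ∧
    ∑ p ∈ PP 1 x, Real.log p / p ≤ Real.log x + C

/-- BLOCK B1b: Mertens for quadratic characters. -/
def StmtChar : Prop :=
  ∀ Δ : ℤ, ¬ IsSquare Δ → ∃ C : ℝ, ∀ x : ℕ,
    |∑ p ∈ PP 2 x, (jacobiSym Δ p : ℝ) / p| ≤ C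

/-- BLOCK B2a: few integers have a large smooth part. -/
def StmtE1 : Prop :=
  ∃ C : ℝ, 0 < C ∧ ∀ M a b X : ℕ, 0 < a → 0 < b → 2 ≤ X → ∀ S : Finset ℕ,
    (∀ c ∈ S, 0 < c ∧ c ≤ X ∧
      X < (∏ p ∈ c.primeFactors.filter (fun p => ¬ p ∣ M ∧ p ^ b ≤ X), p) ^ a) →
    (S.card : ℝ) ≤ a * (1 / b + C / Real.log X) * X

/-- BLOCK B2b: few integers have no prime factor in a large set of primes. -/
def StmtE2 : Prop :=
  ∀ (X : ℕ) (T : Finset ℕ), (∀ p ∈ T, p.Prime ∧ p ^ 2 ≤ X) → T.Nonempty →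
    ∀ S : Finset ℕ, (∀ c ∈ S, 0 < c ∧ c ≤ X ∧ ∀ p ∈ T, ¬ p ∣ c) →
    (S.card : ℝ) * ∑ p ∈ T, (1 : ℝ) / p ≤ 3 * X

/-! ## Group theory and the other case -/

/-- BLOCK C1: a polynomial of degree 6 over `ℚ` without rational root, every Galois automorphism of
which fixes a root. -/
def StmtC1 : Prop :=
  ∀ f : ℚ[X], f.natDegree = 6 → f.Separable → (∀ a : ℚ, eval a f ≠ 0) →
    ∀ (L : Type) [Field L] [Algebra ℚ L] [FiniteDimensional ℚ L] [IsGalois ℚ L],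
    (f.map (algebraMap ℚ L)).Splits →
    (∀ g : L ≃ₐ[ℚ] L, ∃ r : L, aeval r f = 0 ∧ g r = r) →
    ∃ q : Fin 3 → ℤ[X], (∀ i, (q i).natDegree = 2) ∧ (∀ i, ¬ IsSquare (disc (q i))) ∧
      IsSquare (∏ i, disc (q i)) ∧ ∃ κ : ℚ, κ ≠ 0 ∧
      f = C κ * (∏ i, q i).map (Int.castRingHom ℚ)

/-- The final theorem. -/
def StmtFinal : Prop :=
  ∀ f : ℤ[X], f.natDegree = 6 → (f.map (Int.castRingHom ℚ)).Separable →
    (∀ a : ℚ, aeval a f ≠ 0) →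
    Tendsto (fun N : ℕ => (Nat.card {c : ℤ // |c| ≤ N ∧ HasSection f c} : ℝ) / N) atTop (𝓝 0)

end Pool.Agent.HP
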