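import Pool.Agent.Helper91.Section.Basic

/-!
# The square roots at a Weierstrass point lie in `Kur`
-/

set_option autoImplicit false

universe u

namespace Pool.Agent.HP

open Polynomial Pool.Agent.Helper91.Sect

section

variable {k K : Type u} [Field k] [Field K] [Algebra k K]

/-- the two possible values of `a - c` if `a ^ 2 - c ^ 2` is a constant -/
theorem val_sub_cases {W : ValuationSubring (AlgebraicClosure K)}
    (hW : ∀ z : k, algebraMap k (AlgebraicClosure K) z ∈ W)
    [CharZero k] {a c : AlgebraicClosure K} (h1 : IsAlgebraic k (a ^ 2 - c ^ 2))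
    (h2 : a ^ 2 - c ^ 2 ≠ 0) :
    (W.valuation c ≤ 1 ∧ W.valuation (a - c) = 1) ∨
      (1 < W.valuation c ∧ (W.valuation (a - c) = W.valuation c ∨
        W.valuation (a - c) = (W.valuation c)⁻¹)) := by
  have hv1 : W.valuation (a ^ 2 - c ^ 2) = 1 := const_val_eq_one hW h1 h2
  have hv2 : W.valuation (2 : AlgebraicClosure K) = 1 := by
    have hcz : CharZero (AlgebraicClosure K) :=
      charZero_of_injective_algebraMap (algebraMap k (AlgebraicClosure K)).injective
    refine const_val_eq_one hW (k := k) ?_ two_ne_zero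
    exact_mod_cast isAlgebraic_natCast (R := k) (A := AlgebraicClosure K) 2
  have hprod : W.valuation (a - c) * W.valuation (a + c) = 1 := by
    rw [← map_mul, show (a - c) * (a + c) = a ^ 2 - c ^ 2 by ring, hv1]
  rcases le_or_gt (W.valuation c) 1 with hc | hc
  · left
    refine ⟨hc, ?_⟩
    have ha : W.valuation a ≤ 1 := by
      have h3 : W.valuation (a ^ 2) ≤ 1 := by
        have h4 : a ^ 2 = (a ^ 2 - c ^ 2) + c ^ 2 := by ring
        rw [h4]
        refine (Valuation.map_add _ _ _).trans (max_le hv1.le ?_)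
        rw [map_pow]
        exact pow_le_one₀ zero_le hc
      rw [map_pow] at h3
      exact (pow_le_one_iff_of_nonneg zero_le two_ne_zero).1 h3
    have h3 : W.valuation (a - c) ≤ 1 := (Valuation.map_sub _ _ _).trans (max_le ha hc)
    have h4 : W.valuation (a + c) ≤ 1 := (Valuation.map_add _ _ _).trans (max_le ha hc)
    refine le_antisymm h3 ?_
    calc (1 : _) = W.valuation (a - c) * W.valuation (a + c) := hprod.symm
      _ ≤ W.valuation (a - c) * 1 := mul_le_mul_right h4 _
      _ = W.valuation (a - c) := mul_one _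
  · right
    refine ⟨hc, ?_⟩
    have hc0 : W.valuation c ≠ 0 := (zero_lt_one.trans hc).ne'
    have ha : W.valuation a = W.valuation c := by
      have h3 : W.valuation (a ^ 2) = W.valuation (c ^ 2) := by
        have h4 : a ^ 2 = c ^ 2 + (a ^ 2 - c ^ 2) := by ring
        rw [h4]
        refine Valuation.map_add_eq_of_lt_left _ ?_
        rw [hv1, map_pow]
        exact one_lt_pow₀ hc two_ne_zero
      rw [map_pow, map_pow] at h3
      have h4 : (W.valuation a / W.valuation c) ^ 2 = 1 := by
        rw [div_pow, h3, div_self (pow_ne_zero 2 hc0)]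
      have h5 := (pow_eq_one_iff_of_nonneg zero_le two_ne_zero).1 h4
      rw [div_eq_one_iff_eq hc0] at h5
      exact h5
    have h3 : W.valuation (a - c) ≤ W.valuation c :=
      (Valuation.map_sub _ _ _).trans (max_le ha.le le_rfl)
    have h4 : W.valuation (a + c) ≤ W.valuation c :=
      (Valuation.map_add _ _ _).trans (max_le ha.le le_rfl)
    have h5 : W.valuation c ≤ max (W.valuation (a - c)) (W.valuation (a + c)) := by
      have h6 : W.valuation (2 * a) = W.valuation c := by rw [map_mul, hv2, one_mul, ha]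
      rw [← h6, show 2 * a = (a - c) + (a + c) by ring]
      exact Valuation.map_add _ _ _
    rcases le_max_iff.1 h5 with h6 | h6
    · left
      exact le_antisymm h3 h6
    · right
      have h7 := le_antisymm h4 h6
      rw [h7] at hprod
      exact eq_inv_of_mul_eq_one_left hprod

theorem sq_eq_one_of {Γ : Type*} [LinearOrderedCommGroupWithZero Γ] {a b : Γ} (hb : b ≠ 0)
    (h : a ^ 2 = b ^ 2) : a = b := by
  have h4 : (a / b) ^ 2 = 1 := by rw [div_pow, h, div_self (pow_ne_zero 2 hb)]
  have h5 := (pow_eq_one_iff_of_nonneg zero_le two_ne_zero).1 h4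
  rwa [div_eq_one_iff_eq hb] at h5

/-- The element `w` with `w² = (a - c)(b - c)` is unramified. -/
theorem w_mem_Kur [CharZero k] {a b c w : AlgebraicClosure K} (ha : a ∈ Kur k K)
    (hb : b ∈ Kur k K) (hc : c ∈ Kur k K) (hw : w ^ 2 = (a - c) * (b - c))
    (h1 : IsAlgebraic k (a ^ 2 - c ^ 2)) (h2 : a ^ 2 - c ^ 2 ≠ 0)
    (h3 : IsAlgebraic k (b ^ 2 - c ^ 2)) (h4 : b ^ 2 - c ^ 2 ≠ 0) : w ∈ Kur k K := by
  intro W hW σ hσ
  have hσa := ha W hW σ hσ
  have hσb := hb W hW σ hσ
  have hσc := hc W hW σ hσ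
  have hσw : σ (w ^ 2) = w ^ 2 := by
    rw [hw, map_mul, map_sub, map_sub, hσa, hσb, hσc]
  have key : ∀ z : AlgebraicClosure K, σ z = z → z ≠ 0 → W.valuation w ^ 2 = W.valuation z ^ 2 →
      σ w = w := fun z hz hz0 hv =>
    unit_crit hW hσ hz (sq_eq_one_of ((Valuation.ne_zero_iff _).2 hz0) hv) two_pos hσw
  have hww : W.valuation w ^ 2 = W.valuation (a - c) * W.valuation (b - c) := by
    rw [← map_pow, hw, map_mul]
  rcases val_sub_cases hW h1 h2 with ⟨hc1, h5⟩ | ⟨hc1, h5⟩
  · rcases val_sub_cases hW h3 h4 with ⟨-, h6⟩ | ⟨hc2, -⟩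
    · exact key 1 (map_one σ) one_ne_zero (by rw [hww, h5, h6, map_one]; simp)
    · exact absurd hc1 (not_le.2 hc2)
  · have hc0 : c ≠ 0 := by
      rintro rfl
      rw [map_zero] at hc1
      exact not_lt.2 zero_le hc1
    have hvc : W.valuation c ≠ 0 := (Valuation.ne_zero_iff _).2 hc0
    rcases val_sub_cases hW h3 h4 with ⟨hc2, -⟩ | ⟨-, h6⟩
    · exact absurd hc2 (not_le.2 hc1)
    · rcases h5 with h5 | h5 <;> rcases h6 with h6 | h6
      · exact key c hσc hc0 (by rw [hww, h5, h6, pow_two])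
      · exact key 1 (map_one σ) one_ne_zero (by
          rw [hww, h5, h6, mul_inv_cancel₀ hvc, map_one, one_pow])
      · exact key 1 (map_one σ) one_ne_zero (by
          rw [hww, h5, h6, inv_mul_cancel₀ hvc, map_one, one_pow])
      · exact key c⁻¹ (by rw [map_inv₀, hσc]) (inv_ne_zero hc0) (by
          rw [hww, h5, h6, map_inv₀, pow_two])

end

section Core

/-- The sign computation. -/
theorem sign_core {F : Type*} [Field F] [CharZero F] (T : F →+* F) {a b c w W : F} {e d₁ d₂ d₃ : ℤˣ}
    (hTa : T a = -a) (hTb : T b = -b) (hTc : T c = -c)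
    (hw : w ^ 2 = (a - c) * (b - c))
    (hW : W ^ 2 = (((d₁ : ℤ) : F) * a - ((d₃ : ℤ) : F) * c) *
      (((d₂ : ℤ) : F) * b - ((d₃ : ℤ) : F) * c))
    (hTw : T w = ((e : ℤ) : F) * w) (hTW : T W = ((e : ℤ) : F) * W)
    (hfa : ∀ z, z ^ 2 = -(a ^ 2 - c ^ 2) → T z = z) (hfb : ∀ z, z ^ 2 = -(b ^ 2 - c ^ 2) → T z = z)
    (ha : a ^ 2 - c ^ 2 ≠ 0) (hb : b ^ 2 - c ^ 2 ≠ 0) : d₁ = d₂ := by
  have hac : a - c ≠ 0 := fun h => ha (by linear_combination (a + c) * h)
  have hbc : b - c ≠ 0 := fun h => hb (by linear_combination (b + c) * h)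
  have hw0 : w ≠ 0 := by
    rintro rfl
    rw [zero_pow two_ne_zero] at hw
    exact mul_ne_zero hac hbc hw.symm
  have he : ((e : ℤ) : F) ≠ 0 := by
    rcases Int.units_eq_one_or e with h | h <;> simp [h]
  by_contra hne
  rcases Int.units_eq_one_or d₁ with h1 | h1 <;> rcases Int.units_eq_one_or d₂ with h2 | h2 <;>
    rcases Int.units_eq_one_or d₃ with h3 | h3
  · exact hne (h1.trans h2.symm)
  · exact hne (h1.trans h2.symm)
  · -- `d₁ = 1, d₂ = -1, d₃ = 1`
    rw [h1, h2, h3] at hW
    push_cast at hW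
    have hz : (W * (b - c) / w) ^ 2 = -(b ^ 2 - c ^ 2) := by
      rw [div_pow, mul_pow, hW, hw]
      field_simp
      ring
    have h4 := hfb _ hz
    rw [map_div₀, map_mul, map_sub, hTW, hTw, hTb, hTc] at h4
    have h5 : ((e : ℤ) : F) * W * (-b - -c) / (((e : ℤ) : F) * w) = -(W * (b - c) / w) := by
      field_simp
      ring
    rw [h5] at h4
    have h6 : 2 * (W * (b - c) / w) = 0 := by linear_combination -h4
    have h7 := (mul_eq_zero.1 h6).resolve_left two_ne_zero
    rw [h7, zero_pow two_ne_zero] at hz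
    exact hb (by linear_combination hz)
  · -- `d₁ = 1, d₂ = -1, d₃ = -1`
    rw [h1, h2, h3] at hW
    push_cast at hW
    have hz : (W * (a - c) / w) ^ 2 = -(a ^ 2 - c ^ 2) := by
      rw [div_pow, mul_pow, hW, hw]
      field_simp
      ring
    have h4 := hfa _ hz
    rw [map_div₀, map_mul, map_sub, hTW, hTw, hTa, hTc] at h4
    have h5 : ((e : ℤ) : F) * W * (-a - -c) / (((e : ℤ) : F) * w) = -(W * (a - c) / w) := by
      field_simp
      ring
    rw [h5] at h4
    have h6 : 2 * (W * (a - c) / w) = 0 := by linear_combination -h4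
    have h7 := (mul_eq_zero.1 h6).resolve_left two_ne_zero
    rw [h7, zero_pow two_ne_zero] at hz
    exact ha (by linear_combination hz)
  · -- `d₁ = -1, d₂ = 1, d₃ = 1`
    rw [h1, h2, h3] at hW
    push_cast at hW
    have hz : (W * (a - c) / w) ^ 2 = -(a ^ 2 - c ^ 2) := by
      rw [div_pow, mul_pow, hW, hw]
      field_simp
      ring
    have h4 := hfa _ hz
    rw [map_div₀, map_mul, map_sub, hTW, hTw, hTa, hTc] at h4
    have h5 : ((e : ℤ) : F) * W * (-a - -c) / (((e : ℤ) : F) * w) = -(W * (a - c) / w) := by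
      field_simp
      ring
    rw [h5] at h4
    have h6 : 2 * (W * (a - c) / w) = 0 := by linear_combination -h4
    have h7 := (mul_eq_zero.1 h6).resolve_left two_ne_zero
    rw [h7, zero_pow two_ne_zero] at hz
    exact ha (by linear_combination hz)
  · -- `d₁ = -1, d₂ = 1, d₃ = -1`
    rw [h1, h2, h3] at hW
    push_cast at hW
    have hz : (W * (b - c) / w) ^ 2 = -(b ^ 2 - c ^ 2) := by
      rw [div_pow, mul_pow, hW, hw]
      field_simp
      ring
    have h4 := hfb _ hz
    rw [map_div₀, map_mul, map_sub, hTW, hTw, hTb, hTc] at h4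
    have h5 : ((e : ℤ) : F) * W * (-b - -c) / (((e : ℤ) : F) * w) = -(W * (b - c) / w) := by
      field_simp
      ring
    rw [h5] at h4
    have h6 : 2 * (W * (b - c) / w) = 0 := by linear_combination -h4
    have h7 := (mul_eq_zero.1 h6).resolve_left two_ne_zero
    rw [h7, zero_pow two_ne_zero] at hz
    exact hb (by linear_combination hz)
  · exact hne (h1.trans h2.symm)
  · exact hne (h1.trans h2.symm)

end Core

end Pool.Agent.HP
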