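import Pool.Agent.Helper45.HP.Twist
import Pool.Agent.Helper45.HP.Padic
import Pool.Agent.Helper45.HP.Comb

/-!
# The local step
-/

set_option autoImplicit false
set_option linter.unusedSectionVars false

namespace Pool.Agent.HP

open Polynomial Pool.Agent.Helper91.Sect

section

variable {k K : Type} [Field k] [Field K] [Algebra k K] [CharZero k]

/-- the index set of the six roots -/
abbrev Ix := Fin 3 × Fin 2

/-- The global data of the curve. -/
structure Pre (k : Type) {K : Type} [Field k] [Field K] [Algebra k K] (x y : K) (q : Fin 3 → ℤ[X])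
    (c : ℤ) where
  htr : Transcendental k x
  hc : Squarefree c
  hxy : (c : K) * y ^ 2 = aeval x (∏ i, q i)
  root : Ix → kbar k K
  hinj : Function.Injective root
  lc : Fin 3 → ℤ
  hlc0 : ∀ i, lc i ≠ 0
  hq : ∀ i, (q i).map (Int.castRingHom (kbar k K)) =
    C ((lc i : ℤ) : kbar k K) * ((X - C (root (i, 0))) * (X - C (root (i, 1))))
  v : kbar k K → AlgebraicClosure K
  hv : ∀ r : kbar k K, v r ^ 2 = algebraMap K (AlgebraicClosure K) x - (r : AlgebraicClosure K)

/-- The global data of the section. -/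
structure Data (s : GaloisSection k K) (x y : K) (q : Fin 3 → ℤ[X]) (c : ℤ) extends
    Pre k x y q c where
  W : Fin 3 → Kur k K
  hW : ∀ i, (W i : AlgebraicClosure K) = v (root (i, 0)) * v (root (i, 1))
  z : Fin 3 → kbar k K
  D : Fin 3 → ℤ
  hD : ∀ i, Squarefree (D i)
  hz : ∀ i, z i ^ 2 = ((D i * lc i : ℤ) : kbar k K)
  hfix : ∀ i g, s.toHom g (toKur k K (z i) * W i) = toKur k K (z i) * W i

variable {x y : K} {q : Fin 3 → ℤ[X]} {c : ℤ}

theorem Pre.eval_q (d : Pre k x y q c) (i : Fin 3) (t : kbar k K) :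
    aeval t (q i) = ((d.lc i : ℤ) : kbar k K) * ((t - d.root (i, 0)) * (t - d.root (i, 1))) := by
  have h1 := congrArg (eval t) (d.hq i)
  rw [eval_map] at h1
  simp only [eval_mul, eval_C, eval_sub, eval_X] at h1
  rw [← h1, aeval_def]
  rfl

theorem Pre.root_iff (d : Pre k x y q c) (i : Fin 3) (t : kbar k K) :
    aeval t (q i) = 0 ↔ t = d.root (i, 0) ∨ t = d.root (i, 1) := by
  have h0 : ((d.lc i : ℤ) : kbar k K) ≠ 0 := by exact_mod_cast d.hlc0 i
  rw [d.eval_q, mul_eq_zero, mul_eq_zero, sub_eq_zero, sub_eq_zero]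
  constructor
  · rintro (h | h)
    · exact absurd h h0
    · exact h
  · exact Or.inr

theorem Pre.root_mem (d : Pre k x y q c) (t : Ix) : aeval (d.root t) (∏ i, q i) = 0 := by
  rw [map_prod]
  refine Finset.prod_eq_zero (Finset.mem_univ t.1) ?_
  rw [d.root_iff]
  obtain ⟨i, u⟩ := t
  fin_cases u
  · exact Or.inl rfl
  · exact Or.inr rfl

/-- the set of the roots -/
def Pre.R (d : Pre k x y q c) : Finset (kbar k K) := Finset.univ.map ⟨d.root, d.hinj⟩

theorem Pre.mem_R (d : Pre k x y q c) (r : kbar k K) : r ∈ d.R ↔ ∃ t, d.root t = r := by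
  simp [Pre.R]

theorem Pre.heq (d : Pre k x y q c) :
    (((c : ℤ) : kbar k K) : AlgebraicClosure K) * (algebraMap K (AlgebraicClosure K) y) ^ 2 =
    ((∏ i, ((d.lc i : ℤ) : kbar k K) : kbar k K) : AlgebraicClosure K) *
      ∏ r ∈ d.R, (algebraMap K (AlgebraicClosure K) x -
        (r : AlgebraicClosure K)) := by
  classical
  have h0 := congrArg (algebraMap K (AlgebraicClosure K)) d.hxy
  rw [map_mul, map_intCast, map_pow] at h0
  have h1 : (((c : ℤ) : kbar k K) : AlgebraicClosure K) = (c : AlgebraicClosure K) := by simp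
  rw [h1, h0, ← aeval_algebraMap_apply, map_prod, Pre.R, Finset.prod_map, Fintype.prod_prod_type]
  have h2 : ((∏ i, ((d.lc i : ℤ) : kbar k K) : kbar k K) : AlgebraicClosure K) =
      ∏ i, ((d.lc i : ℤ) : AlgebraicClosure K) := by push_cast; rfl
  rw [h2, ← Finset.prod_mul_distrib]
  refine Finset.prod_congr rfl fun i _ => ?_
  rw [Fin.prod_univ_two]
  have h3 : (q i).map (Int.castRingHom (AlgebraicClosure K)) =
      C ((d.lc i : ℤ) : AlgebraicClosure K) *
        ((X - C ((d.root (i, 0) : kbar k K) : AlgebraicClosure K)) *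
          (X - C ((d.root (i, 1) : kbar k K) : AlgebraicClosure K))) := by
    have h4 := congrArg (Polynomial.map (algebraMap (kbar k K) (AlgebraicClosure K))) (d.hq i)
    rw [Polynomial.map_map, Polynomial.map_mul, Polynomial.map_mul, Polynomial.map_sub,
      Polynomial.map_sub, map_C, map_C, map_C, map_X, map_intCast] at h4
    rw [← RingHom.eq_intCast' ((algebraMap (kbar k K) (AlgebraicClosure K)).comp
      (Int.castRingHom (kbar k K)))]
    exact h4
  have h4 := congrArg (eval (algebraMap K (AlgebraicClosure K) x)) h3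
  rw [eval_map] at h4
  simp only [eval_mul, eval_C, eval_sub, eval_X] at h4
  rw [aeval_def]
  exact h4

theorem Pre.hv0 (d : Pre k x y q c) (r : kbar k K) : d.v r ≠ 0 := by
  intro h0
  have hX₀tr : Transcendental k (algebraMap K (AlgebraicClosure K) x) := by
    intro h
    exact d.htr ((isAlgebraic_algebraMap_iff (algebraMap K (AlgebraicClosure K)).injective).1 h)
  apply hX₀tr
  have h1 := d.hv r
  rw [h0, zero_pow two_ne_zero, eq_comm, sub_eq_zero] at h1
  rw [h1]
  exact (mem_algebraicClosure_iff).1 r.2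

theorem Pre.a0_ne (d : Pre k x y q c) : (∏ i, ((d.lc i : ℤ) : kbar k K)) ≠ 0 :=
  Finset.prod_ne_zero_iff.2 fun i _ => by exact_mod_cast d.hlc0 i

theorem Pre.c_ne (d : Pre k x y q c) : ((c : ℤ) : kbar k K) ≠ 0 := by
  exact_mod_cast d.hc.ne_zero

theorem Pre.perm (d : Pre k x y q c) (g : Gk k K) (i : Fin 3) (u : Fin 2) :
    g (d.root (i, u)) = d.root (i, 0) ∨ g (d.root (i, u)) = d.root (i, 1) := by
  rw [← d.root_iff]
  have h1 : aeval (d.root (i, u)) (q i) = 0 := by
    rw [d.root_iff]
    fin_cases u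
    · exact Or.inl rfl
    · exact Or.inr rfl
  have h2 := aeval_algHom_apply (g.toAlgHom.restrictScalars ℤ)
    (d.root (i, u)) (q i)
  rw [h1, map_zero] at h2
  exact h2

end

end Pool.Agent.HP
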