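import Pool.Agent.Helper45.HP.Local

/-!
# The local step, II
-/

set_option autoImplicit false

namespace Pool.Agent.HP

open Polynomial Pool.Agent.Helper91.Sect

section

variable {k K : Type} [Field k] [Field K] [Algebra k K] [CharZero k]
  {s : GaloisSection k K} {x y : K} {q : Fin 3 → ℤ[X]} {c : ℤ}

/-- The place and the signs. -/
structure Loc (d : Data s x y q c) (O : ValuationSubring k) (p : ℕ) where
  Q : IC O (kbar k K)
  hQ : Q.IsPrime
  hA : Above Q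
  hres : ∀ n : ℕ, n ≠ 0 → n.Coprime p → (locW Q).valuation (n : kbar k K) = 1
  hunit : ∀ n : ℤ, ¬ (p : ℤ) ∣ n → (locW Q).valuation (n : kbar k K) = 1
  hint : ∀ t : Ix, IsIntegral O (d.root t)
  hIR : ∀ σ : Gk k K, InI Q σ → ∀ r ∈ d.R, σ r = r
  hQ1 : ∀ r ∈ d.R, ∀ r' ∈ d.R, r ≠ r' → (locW Q).valuation (r - r') = 1
  hno : ∀ τ : Gk k K, InI Q τ → ∀ ξ : AlgebraicClosure K ≃ₐ[K] AlgebraicClosure K,
    (∀ w : Kur k K, ξ w = s.toHom τ w) → ∀ ε : kbar k K → ℤˣ,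
    (∀ r ∈ d.R, ξ (d.v r) = (((ε r : ℤˣ) : ℤ) : AlgebraicClosure K) * d.v r) →
    ∀ t : Fin 4 → Ix, Function.Injective t → ε (d.root (t 0)) = 1 → ε (d.root (t 1)) = 1 →
      ε (d.root (t 2)) = -1 → ε (d.root (t 3)) = -1 → False

theorem exists_loc (d : Data s x y q c) {O : ValuationSubring k} {p : ℕ} [hp : Fact p.Prime]
    (hO : PLike O p) (hp2 : p ≠ 2)
    (hlc : ∀ i, (q i).leadingCoeff = d.lc i) (hpa : ∀ i, ¬ (p : ℤ) ∣ d.lc i)
    (hbez : ∃ (U V : ℤ[X]) (m : ℤ), ¬ (p : ℤ) ∣ m ∧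
      U * (∏ i, q i) + V * derivative (∏ i, q i) = C m) : Nonempty (Loc d O p) := by
  classical
  obtain ⟨Q, hQ, γ₀, hA, hγ₀D, hγ₀⟩ := exists_frob (S := k) (C := kbar k K) O p 1
    (by
      have := (hO.lt (p : ℤ)).2 dvd_rfl
      exact_mod_cast this) hO.frob
  have hcop : Nat.Coprime 2 p := (Nat.coprime_primes Nat.prime_two hp.out).2 (Ne.symm hp2)
  have hunit : ∀ n : ℤ, ¬ (p : ℤ) ∣ n → (locW Q).valuation (n : kbar k K) = 1 := by
    intro n hn
    have h1 := (locW_algebraMap_eq_one Q hA (a := (n : k))).2 ((hO.eq_one n).2 hn)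
    rwa [map_intCast] at h1
  have hres : ∀ n : ℕ, n ≠ 0 → n.Coprime p → (locW Q).valuation (n : kbar k K) = 1 := by
    intro n _ hn
    have h1 := hunit (n : ℤ) (by
      intro h
      have h2 : p ∣ n := by exact_mod_cast h
      exact hp.out.one_lt.ne' (Nat.eq_one_of_dvd_coprimes hn h2 dvd_rfl))
    exact_mod_cast h1
  -- the polynomial
  obtain ⟨F, hF⟩ : ∃ F : ℤ[X], F = ∏ i, q i := ⟨_, rfl⟩
  obtain ⟨fO, hfO⟩ : ∃ fO : O[X], fO = F.map (Int.castRingHom O) := ⟨_, rfl⟩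
  have hcinj : Function.Injective (Int.castRingHom O) := by
    intro a b hab
    have h1 : (((a : O)) : k) = ((b : O) : k) := congrArg Subtype.val hab
    push_cast at h1
    exact_mod_cast h1
  have hlead : F.leadingCoeff = ∏ i, d.lc i := by
    rw [hF, leadingCoeff_prod]
    exact Finset.prod_congr rfl fun i _ => hlc i
  have hlcO : O.valuation ((fO.leadingCoeff : O) : k) = 1 := by
    rw [hfO, leadingCoeff_map_of_injective hcinj, hlead]
    have h1 : (((Int.castRingHom O) (∏ i, d.lc i) : O) : k) = ((∏ i, d.lc i : ℤ) : k) := by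
      simp
    rw [h1, hO.eq_one]
    intro h
    obtain ⟨i, -, hi⟩ := (Prime.dvd_finsetProd_iff (Nat.prime_iff_prime_int.1 hp.out) _).1 h
    exact hpa i hi
  obtain ⟨U, V, m, hm, hUV⟩ := hbez
  rw [← hF] at hUV
  obtain ⟨m', hm'⟩ : ∃ m' : ℤ, (p : ℤ) ∣ m' * m - 1 := by
    have h1 : IsCoprime (m : ℤ) (p : ℤ) := by
      rw [isCoprime_comm]
      exact (Prime.coprime_iff_not_dvd (Nat.prime_iff_prime_int.1 hp.out)).2 hm
    obtain ⟨a, b, hab⟩ := h1
    exact ⟨a, ⟨-b, by linear_combination hab⟩⟩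
  obtain ⟨aO, haO⟩ : ∃ aO : O[X], aO = (C m' * U).map (Int.castRingHom O) := ⟨_, rfl⟩
  obtain ⟨bO, hbO⟩ : ∃ bO : O[X], bO = (C m' * V).map (Int.castRingHom O) := ⟨_, rfl⟩
  have hmO : ∀ n, O.valuation (((aO * fO + bO * derivative fO - 1).coeff n : O) : k) < 1 := by
    intro n
    have h1 : aO * fO + bO * derivative fO - 1 =
        (C (m' * m - 1) : ℤ[X]).map (Int.castRingHom O) := by
      have h2 : C m' * U * F + C m' * V * derivative F - 1 = (C (m' * m - 1) : ℤ[X]) := by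
        rw [C_sub, C_mul, ← hUV, C_1]
        ring
      rw [haO, hbO, hfO, derivative_map, ← Polynomial.map_mul, ← Polynomial.map_mul,
        ← Polynomial.map_add, ← h2, Polynomial.map_sub, Polynomial.map_one]
    rw [h1, coeff_map, coeff_C]
    split_ifs with h3
    · have h4 : (((Int.castRingHom O) (m' * m - 1) : O) : k) = ((m' * m - 1 : ℤ) : k) := by
        simp
      rw [h4, hO.lt]
      exact hm'
    · rw [map_zero]
      simp
  have haev : ∀ r : kbar k K, aeval r fO = aeval r F := by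
    intro r
    rw [hfO, aeval_def, aeval_def, eval₂_map]
    congr 1
    exact RingHom.ext_int _ _
  have hroot : ∀ r ∈ d.R, aeval r fO = 0 := by
    intro r hr
    obtain ⟨t, rfl⟩ := (d.mem_R r).1 hr
    rw [haev, hF]
    exact d.root_mem t
  have hIR : ∀ σ : Gk k K, InI Q σ → ∀ r ∈ d.R, σ r = r := fun σ hσ r hr =>
    inertia_fix_root Q hA hlcO hmO (hroot r hr) hσ
  have hQ1 : ∀ r ∈ d.R, ∀ r' ∈ d.R, r ≠ r' → (locW Q).valuation (r - r') = 1 :=
    fun r hr r' hr' hne => root_sep Q hA hlcO hmO (hroot r hr) (hroot r' hr') hne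
  have hperm : ∀ r ∈ d.R, γ₀ r ∈ d.R := by
    intro r hr
    obtain ⟨⟨i, u⟩, rfl⟩ := (d.mem_R r).1 hr
    rcases d.perm γ₀ i u with h | h
    · exact (d.mem_R _).2 ⟨_, h.symm⟩
    · exact (d.mem_R _).2 ⟨_, h.symm⟩
  obtain ⟨N, hN0, hN⟩ := exists_pow_fix hperm
  have hm1 : 1 < (p ^ 1) ^ N :=
    Nat.one_lt_pow hN0.ne' (Nat.one_lt_pow one_ne_zero hp.out.one_lt)
  have hV2 : (locW Q).valuation (2 : kbar k K) = 1 := by
    have := hres 2 two_ne_zero hcop
    exact_mod_cast this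
  refine ⟨⟨Q, hQ, hA, hres, hunit, fun t => integral_root hlcO (hroot _ ((d.mem_R _).2 ⟨t, rfl⟩)),
    hIR, hQ1, ?_⟩⟩
  intro τ hτ ξ hξ ε hε t ht h0 h1 h2 h3
  exact no_four_wild Q (Or.inr hp.out) hcop hres d.htr d.a0_ne d.c_ne d.heq d.hv d.hv0 s hτ hξ hε
    hIR hQ1 hV2 hQ1 (hγ₀D.pow N) hN hm1 (frob_pow hγ₀ N) (fun i => d.root (t i))
    (fun a b hab => ht (d.hinj hab)) (fun i => (d.mem_R _).2 ⟨_, rfl⟩) h0 h1 h2 h3

end

end Pool.Agent.HP
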