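import Pool.Agent.Helper45.HP.Local2

/-!
# The local step, III
-/

set_option autoImplicit false

namespace Pool.Agent.HP

open Polynomial Pool.Agent.Helper91.Sect

section

variable {k K : Type} [Field k] [Field K] [Algebra k K] [CharZero k]
  {s : GaloisSection k K} {x y : K} {q : Fin 3 → ℤ[X]} {c : ℤ}

/-- The signs of an element of inertia. -/
theorem exists_signs (d : Data s x y q c) {O : ValuationSubring k} {p : ℕ} (hp2 : Nat.Coprime 2 p)
    (hpa : ∀ i, ¬ (p : ℤ) ∣ d.lc i) (hpp : Prime (p : ℤ)) (L : Loc d O p) {τ : Gk k K}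
    (hτ : InI L.Q τ) {ω : kbar k K} (hω : ω ^ 2 = ((c : ℤ) : kbar k K)) :
    ∃ (ξ : AlgebraicClosure K ≃ₐ[K] AlgebraicClosure K) (ε : kbar k K → ℤˣ),
      (∀ w : Kur k K, ξ w = s.toHom τ w) ∧
      (∀ r ∈ d.R, ξ (d.v r) = (((ε r : ℤˣ) : ℤ) : AlgebraicClosure K) * d.v r) ∧
      (∀ i, s.toHom τ (d.W i) = (((ε (d.root (i, 0)) * ε (d.root (i, 1)) : ℤˣ) : ℤ) : Kur k K) *
        d.W i) ∧
      (∀ e : ℤˣ, τ ω = ((e : ℤ) : kbar k K) * ω → ∏ t, ε (d.root t) = e) := by
  classical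
  have hQ := L.hQ
  have hcz : CharZero (AlgebraicClosure K) :=
    charZero_of_injective_algebraMap (algebraMap k (AlgebraicClosure K)).injective
  obtain ⟨ξ, hξ⟩ := exists_ext s τ
  set X₀ := algebraMap K (AlgebraicClosure K) x with hX₀
  set Y₀ := algebraMap K (AlgebraicClosure K) y with hY₀
  have hξX₀ : ξ X₀ = X₀ := ξ.commutes x
  have hξY₀ : ξ Y₀ = Y₀ := ξ.commutes y
  have hsgn : ∀ r : kbar k K, ∃ e : ℤˣ, r ∈ d.R →
      ξ (d.v r) = (((e : ℤˣ) : ℤ) : AlgebraicClosure K) * d.v r := by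
    intro r
    by_cases hr : r ∈ d.R
    · obtain ⟨e, he⟩ := exists_sign (a := ξ (d.v r)) (b := d.v r) (by
        rw [← map_pow, d.hv, map_sub, hξX₀, ext_const s hξ, L.hIR τ hτ r hr])
      exact ⟨e, fun _ => he⟩
    · exact ⟨1, fun h => absurd h hr⟩
  choose ε hε using hsgn
  have hmem : ∀ t, d.root t ∈ d.R := fun t => (d.mem_R _).2 ⟨t, rfl⟩
  refine ⟨ξ, ε, hξ, hε, ?_, ?_⟩
  · intro i
    apply Subtype.ext
    rw [← hξ]
    rw [d.hW, map_mul, hε _ (hmem _), hε _ (hmem _)]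
    change _ = (((((ε (d.root (i, 0)) * ε (d.root (i, 1)) : ℤˣ) : ℤ) : Kur k K) :
      AlgebraicClosure K)) * (d.W i : AlgebraicClosure K)
    rw [d.hW]
    push_cast
    ring
  · intro e he
    obtain ⟨a₀, ha₀⟩ : ∃ a₀ : kbar k K, a₀ = ∏ i, ((d.lc i : ℤ) : kbar k K) := ⟨_, rfl⟩
    have ha₀' : a₀ = ((∏ i, d.lc i : ℤ) : kbar k K) := by rw [ha₀]; push_cast; rfl
    have ha₀0 : a₀ ≠ 0 := by rw [ha₀]; exact d.a0_ne
    obtain ⟨ℓ, hℓ⟩ := IsAlgClosed.exists_pow_nat_eq a₀ two_pos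
    have hτℓ : τ ℓ = ℓ := by
      refine inertia_sqrt L.Q L.hres hp2 hτ ?_ ?_
      · have h1 : (locW L.Q).valuation (ℓ ^ 2) = 1 := by
          rw [hℓ, ha₀']
          refine L.hunit _ fun h => ?_
          obtain ⟨i, -, hi⟩ := (Prime.dvd_finsetProd_iff hpp _).1 h
          exact hpa i hi
        rw [map_pow] at h1
        exact (pow_eq_one_iff_of_nonneg zero_le two_ne_zero).1 h1
      · rw [hℓ, ha₀', map_intCast]
    have heq := d.heq
    rw [← ha₀, ← hX₀, ← hY₀] at heq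
    have hR : ∀ g : kbar k K → AlgebraicClosure K, ∏ r ∈ d.R, g r = ∏ t, g (d.root t) := by
      intro g
      rw [Pre.R, Finset.prod_map]
      rfl
    set pv := ∏ r ∈ d.R, d.v r with hpv
    have hpv0 : pv ≠ 0 := Finset.prod_ne_zero_iff.2 fun r _ => d.hv0 r
    have hℓ0 : (ℓ : AlgebraicClosure K) ≠ 0 := by
      intro h0
      have h1 : ℓ = 0 := Subtype.ext h0
      rw [h1, zero_pow two_ne_zero] at hℓ
      exact ha₀0 hℓ.symm
    have h1 : ((ω : AlgebraicClosure K) * Y₀) ^ 2 = ((ℓ : AlgebraicClosure K) * pv) ^ 2 := by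
      rw [mul_pow, mul_pow]
      have h3 : (ω : AlgebraicClosure K) ^ 2 = (((c : ℤ) : kbar k K) : AlgebraicClosure K) :=
        congrArg Subtype.val hω
      have h4 : (ℓ : AlgebraicClosure K) ^ 2 = a₀ := congrArg Subtype.val hℓ
      rw [h3, h4, heq, hpv, ← Finset.prod_pow]
      congr 1
      exact Finset.prod_congr rfl fun r _ => (d.hv r).symm
    have h3 : ξ ((ω : AlgebraicClosure K) * Y₀) = ((e : ℤ) : AlgebraicClosure K) *
        ((ω : AlgebraicClosure K) * Y₀) := by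
      rw [map_mul, hξY₀, ext_const s hξ, he]
      have h4 : ((((e : ℤ) : kbar k K) * ω : kbar k K) : AlgebraicClosure K) =
          ((e : ℤ) : AlgebraicClosure K) * (ω : AlgebraicClosure K) := by push_cast; rfl
      rw [h4, mul_assoc]
    have h4 : ξ ((ℓ : AlgebraicClosure K) * pv) =
        (((∏ t, ε (d.root t) : ℤˣ) : ℤ) : AlgebraicClosure K) * ((ℓ : AlgebraicClosure K) * pv) := by
      rw [map_mul, ext_const s hξ, hτℓ, hpv, map_prod, Finset.prod_congr rfl (fun r hr => hε r hr),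
        Finset.prod_mul_distrib, hR (fun r => (((ε r : ℤˣ) : ℤ) : AlgebraicClosure K)),
        Units.coe_prod, Int.cast_prod]
      ring
    have h5 : (((∏ t, ε (d.root t) : ℤˣ) : ℤ) : AlgebraicClosure K) *
        ((ℓ : AlgebraicClosure K) * pv) = ((e : ℤ) : AlgebraicClosure K) *
        ((ℓ : AlgebraicClosure K) * pv) := by
      rw [← h4]
      rcases sq_eq_sq_iff_eq_or_eq_neg.1 h1 with h6 | h6
      · rw [← h6, h3]
      · have h7 : (ℓ : AlgebraicClosure K) * pv = -((ω : AlgebraicClosure K) * Y₀) := by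
          rw [h6, neg_neg]
        rw [h7, map_neg, h3]
        ring
    have h6 := mul_right_cancel₀ (mul_ne_zero hℓ0 hpv0) h5
    exact Units.ext (by exact_mod_cast h6)

omit [CharZero k] in
/-- The group of signs: at most one of the six signs is different. -/
theorem Loc.comb {d : Data s x y q c} {O : ValuationSubring k} {p : ℕ} (L : Loc d O p) {τ : Gk k K}
    (hτ : InI L.Q τ) {ξ : AlgebraicClosure K ≃ₐ[K] AlgebraicClosure K}
    (hξ : ∀ w : Kur k K, ξ w = s.toHom τ w) {ε : kbar k K → ℤˣ}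
    (hε : ∀ r ∈ d.R, ξ (d.v r) = (((ε r : ℤˣ) : ℤ) : AlgebraicClosure K) * d.v r) :
    (∏ t, ε (d.root t) = 1 → ∀ a b, ε (d.root a) = ε (d.root b)) ∧
      (∏ t, ε (d.root t) = -1 → ∃ a, ∀ b, b ≠ a → ε (d.root b) = -ε (d.root a)) := by
  refine Pool.Agent.HP.comb (by simp [Ix]) (fun t => ε (d.root t)) ?_
  intro a b c' e hab hce ha hb hc he
  refine L.hno τ hτ ξ hξ ε hε ![a, b, c', e] ?_ ha hb hc he
  have hpm : (1 : ℤˣ) ≠ -1 := by decide
  have hac : a ≠ c' := fun h => by rw [h, hc] at ha; exact hpm ha.symm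
  have hae : a ≠ e := fun h => by rw [h, he] at ha; exact hpm ha.symm
  have hbc : b ≠ c' := fun h => by rw [h, hc] at hb; exact hpm hb.symm
  have hbe : b ≠ e := fun h => by rw [h, he] at hb; exact hpm hb.symm
  intro i j hij
  fin_cases i <;> fin_cases j
  all_goals first
    | rfl
    | exact (hab hij).elim
    | exact (hac hij).elim
    | exact (hae hij).elim
    | exact (hbc hij).elim
    | exact (hbe hij).elim
    | exact (hce hij).elim
    | exact (hab hij.symm).elim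
    | exact (hac hij.symm).elim
    | exact (hae hij.symm).elim
    | exact (hbc hij.symm).elim
    | exact (hbe hij.symm).elim
    | exact (hce hij.symm).elim

end

end Pool.Agent.HP
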