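import Pool.Agent.Helper45.HP.Local3

/-!
# The local step, IV
-/

set_option autoImplicit false

namespace Pool.Agent.HP

open Polynomial Pool.Agent.Helper91.Sect

section

variable {k K : Type} [Field k] [Field K] [Algebra k K] [CharZero k]
  {s : GaloisSection k K} {x y : K} {q : Fin 3 → ℤ[X]} {c : ℤ}

theorem sign_eq_neg_one_iff {e : ℤˣ} : e ≠ 1 ↔ e = -1 := by
  rcases Int.units_eq_one_or e with h | h <;> simp [h]

/-- Inertia acts on `z i` by the product of the two signs. -/
theorem act_z (d : Data s x y q c) {τ : Gk k K} {i : Fin 3} {e : ℤˣ}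
    (h : s.toHom τ (d.W i) = ((e : ℤ) : Kur k K) * d.W i) : τ (d.z i) = ((e : ℤ) : kbar k K) * d.z i := by
  have hW0 : d.W i ≠ 0 := by
    intro h0
    have h1 : (d.W i : AlgebraicClosure K) = 0 := by rw [h0]; rfl
    rw [d.hW] at h1
    exact mul_ne_zero (d.hv0 _) (d.hv0 _) h1
  have h1 := d.hfix i τ
  rw [map_mul, section_toKur, h] at h1
  have h2 : toKur k K (τ (d.z i)) * ((e : ℤ) : Kur k K) = toKur k K (d.z i) := by
    apply mul_right_cancel₀ hW0
    rw [mul_assoc, h1]
  have he : ((e : ℤ) : Kur k K) * ((e : ℤ) : Kur k K) = 1 := by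
    rw [← Int.cast_mul, ← Units.val_mul, Int.units_mul_self]
    simp
  apply (toKur k K).injective
  rw [map_mul, map_intCast]
  calc toKur k K (τ (d.z i)) = toKur k K (τ (d.z i)) * (((e : ℤ) : Kur k K) * ((e : ℤ) : Kur k K)) := by
        rw [he, mul_one]
    _ = (toKur k K (τ (d.z i)) * ((e : ℤ) : Kur k K)) * ((e : ℤ) : Kur k K) := by ring
    _ = _ := by rw [h2]; ring

theorem Data.z_ne (d : Data s x y q c) (i : Fin 3) : d.z i ≠ 0 := by
  intro h
  have h1 := d.hz i
  rw [h, zero_pow two_ne_zero, eq_comm] at h1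
  have h2 : d.D i * d.lc i = 0 := by exact_mod_cast h1
  exact mul_ne_zero (d.hD i).ne_zero (d.hlc0 i) h2

/-- The primes which do not divide `c`. -/
theorem not_dvd_D (d : Data s x y q c) {O : ValuationSubring k} {p : ℕ} (hO : PLike O p)
    (hp2 : Nat.Coprime 2 p) (hpa : ∀ i, ¬ (p : ℤ) ∣ d.lc i) (hpp : Prime (p : ℤ)) (L : Loc d O p)
    (hpc : ¬ (p : ℤ) ∣ c) (i : Fin 3) : ¬ (p : ℤ) ∣ d.D i := by
  intro hD
  have hQ := L.hQ
  have hczk : CharZero (kbar k K) := inferInstance
  obtain ⟨τ, hτ, hτz⟩ := exists_inertia_neg L.Q L.hA (c := ((d.D i * d.lc i : ℤ) : k))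
    (hO.odd _ _ hD (d.hD i) (hpa i)) (w := d.z i) (by rw [d.hz, map_intCast])
  obtain ⟨ω, hω⟩ := IsAlgClosed.exists_pow_nat_eq ((c : ℤ) : kbar k K) two_pos
  obtain ⟨ξ, ε, hξ, hε, hW, hprod⟩ := exists_signs d hp2 hpa hpp L hτ hω
  have hτω : τ ω = ω := by
    refine inertia_sqrt L.Q L.hres hp2 hτ ?_ (by rw [hω, map_intCast])
    have h1 : (locW L.Q).valuation (ω ^ 2) = 1 := by rw [hω]; exact L.hunit c hpc
    rw [map_pow] at h1
    exact (pow_eq_one_iff_of_nonneg zero_le two_ne_zero).1 h1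
  have h1 := hprod 1 (by rw [hτω]; simp)
  have h2 := (L.comb hτ hξ hε).1 h1 (i, 0) (i, 1)
  have h3 := act_z d (hW i)
  rw [h2, Int.units_mul_self, hτz] at h3
  have h4 : 2 * d.z i = 0 := by
    have h5 : ((((1 : ℤˣ) : ℤ) : kbar k K)) = 1 := by simp
    rw [h5, one_mul] at h3
    linear_combination -h3
  exact d.z_ne i ((mul_eq_zero.1 h4).resolve_left two_ne_zero)

theorem fin2_other : ∀ u u' w : Fin 2, u' ≠ u → w = u ∨ w = u' := by decide

theorem fin2_cases (u : Fin 2) : u = 0 ∨ u = 1 := by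
  fin_cases u
  · exact Or.inl rfl
  · exact Or.inr rfl

/-- The primes which divide `c`. -/
theorem dvd_step (d : Data s x y q c) {O : ValuationSubring k} {p : ℕ} (hO : PLike O p)
    (hp2 : Nat.Coprime 2 p) (hpa : ∀ i, ¬ (p : ℤ) ∣ d.lc i) (hpp : Prime (p : ℤ)) (L : Loc d O p)
    (hp : p.Prime) (hpc : (p : ℤ) ∣ c) :
    ∃ (i : Fin 3) (u : Fin 2), (∀ j, (p : ℤ) ∣ d.D j ↔ j = i) ∧
      (∀ γ : Gk k K, InD L.Q γ → γ (d.root (i, u)) = d.root (i, u)) ∧
      ∀ j, j ≠ i → ∃ U : kbar k K, U ^ 2 = (d.D j : kbar k K) * aeval (d.root (i, u)) (q j) ∧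
        ∀ γ : Gk k K, InD L.Q γ → γ U = U := by
  classical
  have hQ := L.hQ
  obtain ⟨ω, hω⟩ := IsAlgClosed.exists_pow_nat_eq ((c : ℤ) : kbar k K) two_pos
  obtain ⟨τ, hτ, hτω⟩ := exists_inertia_neg L.Q L.hA (c := ((c * 1 : ℤ) : k))
    (hO.odd _ _ hpc d.hc (fun h => hpp.not_isUnit (isUnit_of_dvd_one h))) (w := ω)
    (by rw [hω, map_intCast, mul_one])
  obtain ⟨ξ, ε, hξ, hε, hW, hprod⟩ := exists_signs d hp2 hpa hpp L hτ hω
  have h1 := hprod (-1) (by rw [hτω]; simp)
  obtain ⟨⟨i, u⟩, hodd⟩ := (L.comb hτ hξ hε).2 h1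
  have hmem : ∀ t, d.root t ∈ d.R := fun t => (d.mem_R _).2 ⟨t, rfl⟩
  have hpm : ∀ e : ℤˣ, e ≠ -e := by
    intro e
    rcases Int.units_eq_one_or e with h | h <;> rw [h] <;> decide
  -- the other root
  obtain ⟨u', huu⟩ : ∃ u' : Fin 2, u' ≠ u := by
    rcases fin2_cases u with h | h
    · exact ⟨1, by rw [h]; decide⟩
    · exact ⟨0, by rw [h]; decide⟩
  have hcases : ∀ w : Fin 2, w = u ∨ w = u' := fun w => fin2_other u u' w huu
  have hne : ((i, u') : Ix) ≠ (i, u) := fun h => huu (congrArg Prod.snd h)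
  have hpermi : ∀ γ : Gk k K, γ (d.root (i, u)) = d.root (i, u) ∨
      γ (d.root (i, u)) = d.root (i, u') := by
    intro γ
    rcases d.perm γ i u with h | h
    · rcases hcases 0 with h0 | h0 <;> rw [h0] at h
      · exact Or.inl h
      · exact Or.inr h
    · rcases hcases 1 with h0 | h0 <;> rw [h0] at h
      · exact Or.inl h
      · exact Or.inr h
  -- an index different from `i`
  obtain ⟨j₀, hj₀⟩ : ∃ j₀ : Fin 3, j₀ ≠ i := exists_ne i
  have hneq : ∀ {j : Fin 3} {w : Fin 2}, j ≠ i → ((j, w) : Ix) ≠ (i, u) :=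
    fun hj h => hj (congrArg Prod.fst h)
  have hfix : ∀ γ : Gk k K, InD L.Q γ → γ (d.root (i, u)) = d.root (i, u) := by
    intro γ hγ
    rcases hpermi γ with h | h
    · exact h
    · exfalso
      have hγ0 : ∃ w, γ (d.root (j₀, 0)) = d.root (j₀, w) := by
        rcases d.perm γ j₀ 0 with h2 | h2
        · exact ⟨0, h2⟩
        · exact ⟨1, h2⟩
      obtain ⟨w, hw⟩ := hγ0
      have h2 := eps_inv_wild d.a0_ne d.c_ne d.heq d.hv s L.Q (Or.inr hp) hp2 L.hres hτ hξ hε d.hv0
        L.hIR hγ (hmem (j₀, 0)) (hmem (i, u)) (by rw [hw]; exact hmem _) (by rw [h]; exact hmem _)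
      rw [hw, h, hodd _ (hneq hj₀), hodd _ hne, hodd _ (hneq hj₀)] at h2
      have h3 : -ε (d.root (i, u)) = ε (d.root (i, u)) := by
        have := mul_left_cancel h2
        exact this
      exact hpm _ h3.symm
  have hfix' : ∀ γ : Gk k K, InD L.Q γ → γ (d.root (i, u')) = d.root (i, u') := by
    intro γ hγ
    have h2 : γ (d.root (i, u')) = d.root (i, u) ∨ γ (d.root (i, u')) = d.root (i, u') := by
      rcases d.perm γ i u' with h | h
      · rcases hcases 0 with h0 | h0 <;> rw [h0] at h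
        · exact Or.inl h
        · exact Or.inr h
      · rcases hcases 1 with h0 | h0 <;> rw [h0] at h
        · exact Or.inl h
        · exact Or.inr h
    rcases h2 with h2 | h2
    · exfalso
      rw [← hfix γ hγ] at h2
      exact hne (d.hinj (γ.injective h2))
    · exact h2
  -- the products of the signs
  have hP : ∀ j, ε (d.root (j, 0)) * ε (d.root (j, 1)) = if j = i then -1 else 1 := by
    intro j
    split_ifs with hj
    · subst hj
      have h2 : ε (d.root (j, u)) * ε (d.root (j, u')) = -1 := by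
        rw [hodd _ hne, mul_neg, Int.units_mul_self]
      rcases hcases 0 with h0 | h0 <;> rcases hcases 1 with h3 | h3
      · exact absurd (h0.trans h3.symm) (by decide)
      · rw [h0, h3]; exact h2
      · rw [h0, h3, mul_comm]; exact h2
      · exact absurd (h0.trans h3.symm) (by decide)
    · rw [hodd _ (hneq hj), hodd _ (hneq hj), Int.units_mul_self]
  have hτz : ∀ j, τ (d.z j) = if j = i then -d.z j else d.z j := by
    intro j
    have h2 := act_z d (hW j)
    rw [hP j] at h2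
    rw [h2]
    split_ifs <;> simp
  refine ⟨i, u, ?_, hfix, ?_⟩
  · intro j
    constructor
    · intro hDj
      by_contra hji
      have h2 := hτz j
      rw [if_neg hji] at h2
      obtain ⟨m, hm⟩ := hDj
      obtain ⟨m', hm'⟩ := hpc
      have hnd : ∀ {n t : ℤ}, Squarefree n → n = p * t → ¬ (p : ℤ) ∣ t := by
        intro n t hn hnt ⟨t', ht'⟩
        have h3 := hn p ⟨t', by rw [hnt, ht']; ring⟩
        exact hpp.not_isUnit h3
      have hm1 := hnd (d.hD j) hm
      have hm'1 := hnd d.hc hm'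
      have hp0 : ((p : ℤ) : kbar k K) ≠ 0 := by exact_mod_cast hpp.ne_zero
      have hm'0 : ((m' : ℤ) : kbar k K) ≠ 0 := by
        intro h0
        have h3 : m' = 0 := by exact_mod_cast h0
        exact hm'1 (h3 ▸ dvd_zero _)
      have hω0 : ω ≠ 0 := by
        intro h0
        rw [h0, zero_pow two_ne_zero] at hω
        exact d.c_ne hω.symm
      have hsq : (d.z j / ω) ^ 2 = ((m * d.lc j : ℤ) : kbar k K) / ((m' : ℤ) : kbar k K) := by
        have h3 : ((c : ℤ) : kbar k K) = ((p : ℤ) : kbar k K) * ((m' : ℤ) : kbar k K) := by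
          rw [← Int.cast_mul]
          exact congrArg _ hm'
        have h4 : ((d.D j * d.lc j : ℤ) : kbar k K) =
            ((p : ℤ) : kbar k K) * ((m * d.lc j : ℤ) : kbar k K) := by
          rw [← Int.cast_mul]
          refine congrArg _ ?_
          rw [hm]
          ring
        rw [div_pow, d.hz, hω, h3, h4, mul_div_mul_left _ _ hp0]
      have h3 : τ (d.z j / ω) = d.z j / ω := by
        refine inertia_sqrt L.Q L.hres hp2 hτ ?_ ?_
        · have h4 : (locW L.Q).valuation ((d.z j / ω) ^ 2) = 1 := by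
            rw [hsq, map_div₀, L.hunit m' hm'1, L.hunit (m * d.lc j) (fun h =>
              (hpp.dvd_or_dvd h).elim hm1 (hpa j)), div_one]
          rw [map_pow] at h4
          exact (pow_eq_one_iff_of_nonneg zero_le two_ne_zero).1 h4
        · rw [hsq, map_div₀, map_intCast, map_intCast]
      rw [map_div₀, h2, hτω, div_neg] at h3
      have h4 : 2 * (d.z j / ω) = 0 := by linear_combination -h3
      have h5 := (mul_eq_zero.1 h4).resolve_left two_ne_zero
      exact div_ne_zero (d.z_ne j) hω0 h5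
    · rintro rfl
      by_contra hDj
      have h2 := hτz j
      rw [if_pos rfl] at h2
      have h3 : τ (d.z j) = d.z j := by
        refine inertia_sqrt L.Q L.hres hp2 hτ ?_ (by rw [d.hz, map_intCast])
        have h4 : (locW L.Q).valuation (d.z j ^ 2) = 1 := by
          rw [d.hz]
          exact L.hunit _ fun h => (hpp.dvd_or_dvd h).elim hDj (hpa j)
        rw [map_pow] at h4
        exact (pow_eq_one_iff_of_nonneg zero_le two_ne_zero).1 h4
      rw [h2] at h3
      have h4 : 2 * d.z j = 0 := by linear_combination -h3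
      exact d.z_ne j ((mul_eq_zero.1 h4).resolve_left two_ne_zero)
  · intro j hj
    obtain ⟨ρ, hρ⟩ := IsAlgClosed.exists_pow_nat_eq (d.root (i, u) - d.root (j, 0)) two_pos
    obtain ⟨ρ', hρ'⟩ := IsAlgClosed.exists_pow_nat_eq (d.root (i, u) - d.root (j, 1)) two_pos
    have hn0 : d.root (i, u) ≠ d.root (j, 0) := fun h => hneq hj (d.hinj h).symm
    have hn1 : d.root (i, u) ≠ d.root (j, 1) := fun h => hneq hj (d.hinj h).symm
    have hρ0 : ρ ≠ 0 := by
      rintro rfl
      rw [zero_pow two_ne_zero, eq_comm, sub_eq_zero] at hρ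
      exact hn0 hρ
    have hρ'0 : ρ' ≠ 0 := by
      rintro rfl
      rw [zero_pow two_ne_zero, eq_comm, sub_eq_zero] at hρ'
      exact hn1 hρ'
    refine ⟨d.z j * (ρ * ρ'), ?_, ?_⟩
    · rw [mul_pow, mul_pow, d.hz, hρ, hρ', d.eval_q]
      push_cast
      ring
    · intro γ hγ
      obtain ⟨g, hg⟩ : ∃ g : Kur k K, d.W j = toKur k K (ρ * ρ') * g :=
        ⟨(toKur k K (ρ * ρ'))⁻¹ * d.W j, by
          rw [mul_inv_cancel_left₀]
          exact (map_ne_zero (toKur k K)).2 (mul_ne_zero hρ0 hρ'0)⟩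
      have hg0 : g ≠ 0 := by
        rintro rfl
        rw [mul_zero] at hg
        have h3 : (d.W j : AlgebraicClosure K) = 0 := by rw [hg]; rfl
        rw [d.hW] at h3
        exact mul_ne_zero (d.hv0 _) (d.hv0 _) h3
      have hsgn : ∀ t, t ≠ (i, u) → ε (d.root t) * ε (d.root (i, u)) = -1 := by
        intro t ht
        rw [hodd t ht, neg_mul, Int.units_mul_self]
      have hγj : (γ (d.root (j, 0)) = d.root (j, 0) ∧ γ (d.root (j, 1)) = d.root (j, 1)) ∨
          (γ (d.root (j, 0)) = d.root (j, 1) ∧ γ (d.root (j, 1)) = d.root (j, 0)) := by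
        have hinj : ∀ t t', γ (d.root t) = γ (d.root t') → t = t' := fun t t' h =>
          d.hinj (γ.injective h)
        have h01 : ((j, 0) : Ix) ≠ (j, 1) := by simp
        rcases d.perm γ j 0 with h3 | h3 <;> rcases d.perm γ j 1 with h4 | h4
        · exact absurd (hinj _ _ (h3.trans h4.symm)) h01
        · exact Or.inl ⟨h3, h4⟩
        · exact Or.inr ⟨h3, h4⟩
        · exact absurd (hinj _ _ (h3.trans h4.symm)) h01
      have hT : s.toHom γ g = g := by
        refine tangent s L.Q (Or.inr hp) hp2 L.hres d.a0_ne d.c_ne d.heq d.hv d.hv0 hτ hξ hε L.hIR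
          L.hQ1 (r₀ := d.root (i, u)) (l := d.root (i, u')) (r := d.root (j, 0))
          (r' := d.root (j, 1)) (hmem _) (hmem _) (hmem _) (hmem _) (fun h => hne (d.hinj h).symm)
          hn0 hn1 (fun h => hj (congrArg Prod.fst (d.hinj h)))
          (fun h => hj (congrArg Prod.fst (d.hinj h))) (hsgn _ hne) (hsgn _ (hneq hj))
          (hsgn _ (hneq hj)) hγ (hfix γ hγ) (hfix' γ hγ) hγj hρ hρ' ?_
        have h3 : (d.W j : AlgebraicClosure K) = ((ρ * ρ' : kbar k K) : AlgebraicClosure K) *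
            (g : AlgebraicClosure K) := congrArg Subtype.val hg
        rw [← d.hW j, h3]
        have h4 : ((ρ * ρ' : kbar k K) : AlgebraicClosure K) =
            (ρ : AlgebraicClosure K) * (ρ' : AlgebraicClosure K) := rfl
        rw [h4, mul_comm]
      have h3 := d.hfix j γ
      rw [hg, ← mul_assoc, ← map_mul, map_mul (s.toHom γ), section_toKur, hT] at h3
      exact (toKur k K).injective (mul_right_cancel₀ hg0 h3)

end

end Pool.Agent.HP
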