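import Pool.Agent.Helper45.HP.Local4

/-!
# The local step, V: transfer to `ZMod p`
-/

set_option autoImplicit false

namespace Pool.Agent.HP

open Polynomial Pool.Agent.Helper91.Sect

section

variable {k C : Type} [Field k] [Field C] [Algebra k C]

theorem int_mem_iff {O : ValuationSubring k} {p : ℕ} (hO : PLike O p)
    {Q : Ideal (integralClosure O C)} (hA : Above Q) (N : ℤ) :
    ((N : ℤ) : integralClosure O C) ∈ Q ↔ (p : ℤ) ∣ N := by
  rw [← hO.lt N]
  have h1 := hA ((N : ℤ) : O)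
  rw [map_intCast] at h1
  rw [h1]
  push_cast
  rfl

theorem exists_int [IsGalois k C] [IsAlgClosed C] {O : ValuationSubring k} {p : ℕ}
    (hO : PLike O p) (Q : Ideal (integralClosure O C))
    [hQ : Q.IsPrime] (hA : Above Q) (rb : integralClosure O C)
    (hfix : ∀ γ : C ≃ₐ[k] C, InD Q γ → γ (rb : C) = rb) :
    ∃ n : ℤ, rb - ((n : ℤ) : integralClosure O C) ∈ Q := by
  have hfin := hO.fin
  obtain ⟨c, hc⟩ := exists_residue_of_fixed Q hA rb hfix
  obtain ⟨n, hn⟩ := hO.approx (c : k) c.2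
  refine ⟨n, ?_⟩
  have h1 : algebraMap O (integralClosure O C) (c - (n : O)) ∈ Q := by
    rw [hA]
    have h2 : (((c - (n : O) : O)) : k) = (c : k) - (n : k) := by push_cast; rfl
    rw [h2]
    exact hn
  rw [map_sub, map_intCast] at h1
  have h2 := Q.add_mem hc h1
  rwa [sub_add_sub_cancel] at h2

theorem zmod_core [IsGalois k C] [IsAlgClosed C] {O : ValuationSubring k} {p : ℕ}
    (hO : PLike O p) (Q : Ideal (integralClosure O C))
    [hQ : Q.IsPrime] (hA : Above Q) (q : Fin 3 → ℤ[X]) (i : Fin 3) (r₀ : C)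
    (hint : IsIntegral O r₀) (hr : aeval r₀ (q i) = 0)
    (hfix : ∀ γ : C ≃ₐ[k] C, InD Q γ → γ r₀ = r₀) (D : Fin 3 → ℤ)
    (hU : ∀ j, j ≠ i → ∃ U : C, U ^ 2 = (D j : C) * aeval r₀ (q j) ∧
      ∀ γ : C ≃ₐ[k] C, InD Q γ → γ U = U) :
    ∃ r : ZMod p, aeval r (q i) = 0 ∧
      ∀ j, j ≠ i → IsSquare ((D j : ZMod p) * aeval r (q j)) := by
  obtain ⟨rb, hrb⟩ : ∃ rb : integralClosure O C, (rb : C) = r₀ := ⟨⟨r₀, hint⟩, rfl⟩
  obtain ⟨n, hn⟩ := exists_int hO Q hA rb (fun γ hγ => by rw [hrb]; exact hfix γ hγ)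
  have hcoe : ∀ (t : integralClosure O C) (g : ℤ[X]),
      ((aeval t g : integralClosure O C) : C) = aeval (t : C) g := by
    intro t g
    exact (aeval_algebraMap_apply C t g).symm
  -- evaluation modulo `Q`
  have hmod : ∀ g : ℤ[X], aeval rb g - ((g.eval n : ℤ) : integralClosure O C) ∈ Q := by
    intro g
    rw [← Ideal.Quotient.eq_zero_iff_mem, map_sub, map_intCast, sub_eq_zero]
    have h1 : Ideal.Quotient.mk Q rb = ((n : ℤ) : integralClosure O C ⧸ Q) := by
      rw [← sub_eq_zero, ← map_intCast (Ideal.Quotient.mk Q), ← map_sub,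
        Ideal.Quotient.eq_zero_iff_mem]
      exact hn
    have h2 : Ideal.Quotient.mk Q (aeval rb g) = aeval (Ideal.Quotient.mk Q rb) g := by
      rw [aeval_def, aeval_def, hom_eval₂]
      congr 1
    rw [h2, h1]
    have h3 := aeval_algebraMap_apply (integralClosure O C ⧸ Q) n g
    rw [eq_intCast, eq_intCast, coe_aeval_eq_eval] at h3
    exact h3
  have hz : ∀ g : ℤ[X], aeval ((n : ℤ) : ZMod p) g = ((g.eval n : ℤ) : ZMod p) := by
    intro g
    have h3 := aeval_algebraMap_apply (ZMod p) n g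
    rw [eq_intCast, eq_intCast, coe_aeval_eq_eval] at h3
    exact h3
  refine ⟨((n : ℤ) : ZMod p), ?_, ?_⟩
  · rw [hz, ZMod.intCast_zmod_eq_zero_iff_dvd, ← int_mem_iff hO hA]
    have h1 := hmod (q i)
    have h2 : aeval rb (q i) = 0 := by
      apply Subtype.ext
      rw [hcoe, hrb, hr]
      rfl
    rw [h2, zero_sub, neg_mem_iff] at h1
    exact h1
  · intro j hj
    obtain ⟨U, hU2, hUfix⟩ := hU j hj
    have hUint : IsIntegral O U := by
      refine IsIntegral.of_pow two_pos ?_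
      rw [hU2, ← hrb, ← hcoe]
      have h3 : ((D j : ℤ) : C) = (((D j : ℤ) : integralClosure O C) : C) := by simp
      rw [h3]
      exact (((D j : ℤ) : integralClosure O C) * aeval rb (q j)).2
    obtain ⟨Ub, hUb⟩ : ∃ Ub : integralClosure O C, (Ub : C) = U := ⟨⟨U, hUint⟩, rfl⟩
    obtain ⟨m, hm⟩ := exists_int hO Q hA Ub (fun γ hγ => by rw [hUb]; exact hUfix γ hγ)
    have h1 : Ub ^ 2 = ((D j : ℤ) : integralClosure O C) * aeval rb (q j) := by
      apply Subtype.ext
      change (Ub : C) ^ 2 = ((((D j : ℤ) : integralClosure O C)) : C) *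
        ((aeval rb (q j) : integralClosure O C) : C)
      rw [hUb, hU2, hcoe, hrb]
      simp
    have h2 : ((m ^ 2 - D j * (q j).eval n : ℤ) : integralClosure O C) ∈ Q := by
      have h3 := hmod (q j)
      have h4 : ((m ^ 2 - D j * (q j).eval n : ℤ) : integralClosure O C) =
          ((D j : ℤ) : integralClosure O C) *
            (aeval rb (q j) - (((q j).eval n : ℤ) : integralClosure O C)) -
          (Ub + ((m : ℤ) : integralClosure O C)) * (Ub - ((m : ℤ) : integralClosure O C)) := by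
        push_cast
        linear_combination h1
      rw [h4]
      exact Q.sub_mem (Q.mul_mem_left _ h3) (Q.mul_mem_left _ hm)
    rw [int_mem_iff hO hA] at h2
    refine ⟨((m : ℤ) : ZMod p), ?_⟩
    rw [hz]
    have h3 := (ZMod.intCast_zmod_eq_zero_iff_dvd _ p).2 h2
    push_cast at h3 ⊢
    linear_combination -h3

end

section

variable {k K : Type} [Field k] [Field K] [Algebra k K] [CharZero k]
  {s : GaloisSection k K} {x y : K} {q : Fin 3 → ℤ[X]} {c : ℤ}

theorem zmod_step (d : Data s x y q c) {O : ValuationSubring k} {p : ℕ}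
    (hO : PLike O p) (hp : p.Prime)
    (hp2 : Nat.Coprime 2 p) (hpa : ∀ i, ¬ (p : ℤ) ∣ d.lc i) (hpp : Prime (p : ℤ)) (L : Loc d O p)
    (hpc : (p : ℤ) ∣ c) :
    ∃ i : Fin 3, (∀ j, (p : ℤ) ∣ d.D j ↔ j = i) ∧ ∃ r : ZMod p, aeval r (q i) = 0 ∧
      ∀ j, j ≠ i → IsSquare ((d.D j : ZMod p) * aeval r (q j)) := by
  have hQ := L.hQ
  obtain ⟨i, u, hD, hfix, hU⟩ := dvd_step d hO hp2 hpa hpp L hp hpc
  refine ⟨i, hD, ?_⟩
  refine zmod_core hO L.Q L.hA q i (d.root (i, u)) (L.hint _) ?_ hfix d.D hU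
  refine (d.root_iff i _).2 ?_
  rcases fin2_cases u with h | h
  · exact Or.inl (by rw [h])
  · exact Or.inr (by rw [h])

end

end Pool.Agent.HP
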