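import Pool.Agent.Helper45.HP.KurMem
import Pool.Agent.Helper91.Section.Signs2

/-!
# The tangent condition at a Weierstrass point
-/

set_option autoImplicit false

universe u

namespace Pool.Agent.HP

open Polynomial Pool.Agent.Helper91.Sect

section

variable {k K : Type u} [Field k] [Field K] [Algebra k K] [CharZero k]
  (s : GaloisSection k K) {O : ValuationSubring k} (Q : IC O (kbar k K)) [hQ : Q.IsPrime]
  {p : ℕ} (hp : p = 1 ∨ p.Prime) (hp2 : Nat.Coprime 2 p)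
  (hres : ∀ n : ℕ, n ≠ 0 → n.Coprime p → (locW Q).valuation (n : kbar k K) = 1)

include hp2 hres in
/-- inertia fixes the square roots of fixed units -/
theorem fix_sqrt {τ : Gk k K} (hτ : InI Q τ) {z : Kur k K} {κ : kbar k K}
    (hz : z ^ 2 = toKur k K κ) (hκ : (locW Q).valuation κ = 1) (hτκ : τ κ = κ) :
    s.toHom τ z = z := by
  obtain ⟨κ', hκ'⟩ := IsAlgClosed.exists_pow_nat_eq κ two_pos
  have h1 : τ κ' = κ' := by
    refine inertia_sqrt Q hres hp2 hτ ?_ (by rw [hκ', hτκ])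
    have h2 : (locW Q).valuation (κ' ^ 2) = 1 := by rw [hκ', hκ]
    rw [map_pow] at h2
    exact (pow_eq_one_iff_of_nonneg zero_le two_ne_zero).1 h2
  have h2 : z ^ 2 = (toKur k K κ') ^ 2 := by rw [hz, ← map_pow, hκ']
  rcases sq_eq_sq_iff_eq_or_eq_neg.1 h2 with h3 | h3
  · rw [h3, section_toKur, h1]
  · rw [h3, map_neg, section_toKur, h1]

omit [CharZero k] in
theorem exists_sign {F : Type*} [Field F] {a b : F} (h : a ^ 2 = b ^ 2) :
    ∃ d : ℤˣ, a = ((d : ℤ) : F) * b := by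
  rcases sq_eq_sq_iff_eq_or_eq_neg.1 h with h | h
  · exact ⟨1, by rw [h]; simp⟩
  · exact ⟨-1, by rw [h]; simp⟩

variable
  {x y : K} {a₀ c₀ : kbar k K} (ha₀ : a₀ ≠ 0) (hc₀ : c₀ ≠ 0) {R : Finset (kbar k K)}
  (heq : (c₀ : AlgebraicClosure K) * (algebraMap K (AlgebraicClosure K) y) ^ 2 =
    a₀ * ∏ r ∈ R, (algebraMap K (AlgebraicClosure K) x - (r : AlgebraicClosure K)))
  {v : kbar k K → AlgebraicClosure K}
  (hv : ∀ r : kbar k K, v r ^ 2 = algebraMap K (AlgebraicClosure K) x - (r : AlgebraicClosure K))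
  (hv0 : ∀ r : kbar k K, v r ≠ 0)
  {τ : Gk k K} (hτ : InI Q τ) {ξ : AlgebraicClosure K ≃ₐ[K] AlgebraicClosure K}
  (hξ : ∀ w : Kur k K, ξ w = s.toHom τ w) {ε : kbar k K → ℤˣ}
  (hε : ∀ r ∈ R, ξ (v r) = (((ε r : ℤˣ) : ℤ) : AlgebraicClosure K) * v r)
  (hIR : ∀ σ : Gk k K, InI Q σ → ∀ r ∈ R, σ r = r)
  (hQ1 : ∀ r ∈ R, ∀ r' ∈ R, r ≠ r' → (locW Q).valuation (r - r') = 1)

include ha₀ hc₀ heq hv hv0

omit [CharZero k] in
/-- the elements `√((x - r)/((x - r₀)(r₀ - r)))` -/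
theorem exists_A {r₀ r : kbar k K} (hr₀ : r₀ ∈ R) (hr : r ∈ R) (hne : r₀ ≠ r) {ρ : kbar k K}
    (hρ : ρ ^ 2 = r₀ - r) : ∃ A : Kur k K,
      (A : AlgebraicClosure K) = v r * v r₀ /
        ((algebraMap K (AlgebraicClosure K) x - (r₀ : AlgebraicClosure K)) * ρ) ∧ A ≠ 0 ∧
      A ^ 2 = toKur k K ((r₀ - r)⁻¹) + (algebraMap K (Kur k K) x - toKur k K r₀)⁻¹ := by
  have hρ0 : ρ ≠ 0 := by
    rintro rfl
    rw [zero_pow two_ne_zero, eq_comm, sub_eq_zero] at hρ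
    exact hne hρ
  have hX : algebraMap K (AlgebraicClosure K) x - (r₀ : AlgebraicClosure K) ≠ 0 := by
    rw [← hv]
    exact pow_ne_zero 2 (hv0 _)
  have hρ0' : (ρ : AlgebraicClosure K) ≠ 0 := fun h => hρ0 (Subtype.ext h)
  refine ⟨⟨v r * v r₀ /
        ((algebraMap K (AlgebraicClosure K) x - (r₀ : AlgebraicClosure K)) * ρ), ?_⟩, rfl, ?_, ?_⟩
  · exact div_mem (prod_mem_Kur ha₀ hc₀ heq hv hr hr₀)
      (mul_mem (sub_mem ((Kur k K).algebraMap_mem x) (kbar_mem_Kur r₀)) (kbar_mem_Kur ρ))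
  · intro h
    have h1 : v r * v r₀ /
        ((algebraMap K (AlgebraicClosure K) x - (r₀ : AlgebraicClosure K)) * ρ) = 0 :=
      congrArg Subtype.val h
    exact div_ne_zero (mul_ne_zero (hv0 _) (hv0 _)) (mul_ne_zero hX hρ0') h1
  · apply Subtype.ext
    change (v r * v r₀ / ((algebraMap K (AlgebraicClosure K) x - (r₀ : AlgebraicClosure K)) * ρ)) ^ 2
      = (((r₀ - r)⁻¹ : kbar k K) : AlgebraicClosure K) +
        (algebraMap K (AlgebraicClosure K) x - (r₀ : AlgebraicClosure K))⁻¹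
    have h1 : (((r₀ - r)⁻¹ : kbar k K) : AlgebraicClosure K) =
        ((r₀ : AlgebraicClosure K) - r)⁻¹ := rfl
    have h2 : (ρ : AlgebraicClosure K) ^ 2 = (r₀ : AlgebraicClosure K) - r :=
      congrArg Subtype.val hρ
    have h3 : (r₀ : AlgebraicClosure K) - r ≠ 0 := by
      rw [← h2]
      exact pow_ne_zero 2 hρ0'
    rw [h1, div_pow, mul_pow, mul_pow, h2, hv, hv]
    field_simp
    ring

include hp hp2 hres hτ hξ hε hIR hQ1

/-- **The tangent condition.** -/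
theorem tangent {r₀ l r r' : kbar k K} (hr₀ : r₀ ∈ R) (hl : l ∈ R) (hr : r ∈ R) (hr' : r' ∈ R)
    (n1 : r₀ ≠ l) (n2 : r₀ ≠ r) (n3 : r₀ ≠ r') (n4 : r ≠ l) (n5 : r' ≠ l)
    (el : ε l * ε r₀ = -1) (er : ε r * ε r₀ = -1) (er' : ε r' * ε r₀ = -1)
    {γ : Gk k K} (hγ : InD Q γ) (hγ0 : γ r₀ = r₀) (hγl : γ l = l)
    (hγr : (γ r = r ∧ γ r' = r') ∨ (γ r = r' ∧ γ r' = r))
    {ρ ρ' : kbar k K} (hρ : ρ ^ 2 = r₀ - r) (hρ' : ρ' ^ 2 = r₀ - r')
    {g : Kur k K} (hg : (g : AlgebraicClosure K) * (ρ * ρ') = v r * v r') :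
    s.toHom γ g = g := by
  classical
  have hcz : CharZero (AlgebraicClosure K) :=
    charZero_of_injective_algebraMap (algebraMap k (AlgebraicClosure K)).injective
  have hczK : CharZero (Kur k K) :=
    charZero_of_injective_algebraMap ((algebraMap K (Kur k K)).comp (algebraMap k K)).injective
  obtain ⟨ρl, hρl⟩ := IsAlgClosed.exists_pow_nat_eq (r₀ - l) two_pos
  obtain ⟨A, hA, hA0, hA2⟩ := exists_A ha₀ hc₀ heq hv hv0 hr₀ hr n2 hρ
  obtain ⟨B, hB, hB0, hB2⟩ := exists_A ha₀ hc₀ heq hv hv0 hr₀ hr' n3 hρ'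
  obtain ⟨L, hL, hL0, hL2⟩ := exists_A ha₀ hc₀ heq hv hv0 hr₀ hl n1 hρl
  obtain ⟨Z, hZ⟩ : ∃ Z : Kur k K, Z = (algebraMap K (Kur k K) x - toKur k K r₀)⁻¹ := ⟨_, rfl⟩
  rw [← hZ] at hA2 hB2 hL2
  -- differences of squares
  have hdiff : ∀ {E : Kur k K} {t : kbar k K}, E ^ 2 = toKur k K ((r₀ - t)⁻¹) + Z →
      E ^ 2 - L ^ 2 = toKur k K ((r₀ - t)⁻¹ - (r₀ - l)⁻¹) := by
    intro E t hE
    rw [hE, hL2, map_sub]
    ring
  have hsub0 : ∀ {t t' : kbar k K}, t ≠ t' → t - t' ≠ 0 := fun h => sub_ne_zero.2 h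
  have hconst : ∀ {t : kbar k K}, r₀ ≠ t → t ≠ l →
      (r₀ - t)⁻¹ - (r₀ - l)⁻¹ = (t - l) / ((r₀ - t) * (r₀ - l)) := by
    intro t h1 h2
    have h3 := hsub0 h1
    have h4 := hsub0 n1
    field_simp
    ring
  have hconst0 : ∀ {t : kbar k K}, r₀ ≠ t → t ≠ l → (r₀ - t)⁻¹ - (r₀ - l)⁻¹ ≠ 0 := by
    intro t h1 h2
    rw [hconst h1 h2]
    exact div_ne_zero (hsub0 h2) (mul_ne_zero (hsub0 h1) (hsub0 n1))
  have hconstv : ∀ {t : kbar k K}, t ∈ R → r₀ ≠ t → t ≠ l →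
      (locW Q).valuation ((r₀ - t)⁻¹ - (r₀ - l)⁻¹) = 1 := by
    intro t h0 h1 h2
    rw [hconst h1 h2, map_div₀, map_mul, hQ1 t h0 l hl h2, hQ1 r₀ hr₀ t h0 h1, hQ1 r₀ hr₀ l hl n1,
      one_mul, div_one]
  have hconstτ : ∀ {t : kbar k K}, t ∈ R → ∀ {σ : Gk k K}, InI Q σ →
      σ ((r₀ - t)⁻¹) = (r₀ - t)⁻¹ := by
    intro t h0 σ hσ
    rw [map_inv₀, map_sub, hIR σ hσ _ hr₀, hIR σ hσ _ h0]
  -- Z is fixed
  have hsZ : ∀ σ : Gk k K, σ r₀ = r₀ → s.toHom σ Z = Z := by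
    intro σ hσ
    rw [hZ, map_inv₀, map_sub, AlgEquiv.commutes, section_toKur, hσ]
  have hsE : ∀ {E : Kur k K} {t : kbar k K}, t ∈ R → E ^ 2 = toKur k K ((r₀ - t)⁻¹) + Z →
      ∀ σ : Gk k K, InI Q σ → s.toHom σ (E ^ 2) = E ^ 2 := by
    intro E t ht hE σ hσ
    rw [hE, map_add, section_toKur, hconstτ ht hσ, hsZ σ (hIR σ hσ _ hr₀)]
  -- inertia acts by `-1`
  have hneg : ∀ {E : Kur k K} {t ρt : kbar k K}, t ∈ R → r₀ ≠ t → ρt ^ 2 = r₀ - t →
      ε t * ε r₀ = -1 → (E : AlgebraicClosure K) = v t * v r₀ /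
        ((algebraMap K (AlgebraicClosure K) x - (r₀ : AlgebraicClosure K)) * ρt) →
      s.toHom τ E = -E := by
    intro E t ρt ht h1 h2 h3 hE
    apply Subtype.ext
    rw [← hξ]
    have h4 : τ ρt = ρt := by
      refine inertia_sqrt Q hres hp2 hτ ?_ ?_
      · have h5 : (locW Q).valuation (ρt ^ 2) = 1 := by rw [h2, hQ1 r₀ hr₀ t ht h1]
        rw [map_pow] at h5
        exact (pow_eq_one_iff_of_nonneg zero_le two_ne_zero).1 h5
      · rw [h2, map_sub, hIR τ hτ _ hr₀, hIR τ hτ _ ht]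
    have h5 : ξ (ρt : AlgebraicClosure K) = ρt := by rw [ext_const s hξ, h4]
    have h6 : ξ (r₀ : AlgebraicClosure K) = r₀ := by rw [ext_const s hξ, hIR τ hτ _ hr₀]
    have h7 : ξ (algebraMap K (AlgebraicClosure K) x) = algebraMap K (AlgebraicClosure K) x :=
      ξ.commutes x
    change ξ (E : AlgebraicClosure K) = -(E : AlgebraicClosure K)
    rw [hE, map_div₀, map_mul, map_mul, map_sub, h5, h6, h7, hε _ ht, hε _ hr₀]
    have h8 : (((ε t : ℤˣ) : ℤ) : AlgebraicClosure K) * (((ε r₀ : ℤˣ) : ℤ) : AlgebraicClosure K) =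
        -1 := by
      rw [← Int.cast_mul, ← Units.val_mul, h3]
      simp
    rw [← neg_div]
    congr 1
    calc _ = ((((ε t : ℤˣ) : ℤ) : AlgebraicClosure K) *
          (((ε r₀ : ℤˣ) : ℤ) : AlgebraicClosure K)) * (v t * v r₀) := by ring
      _ = _ := by rw [h8]; ring
  have hTA := hneg hr n2 hρ er hA
  have hTB := hneg hr' n3 hρ' er' hB
  have hTL := hneg hl n1 hρl el hL
  -- the element `w`
  obtain ⟨w', hw'⟩ := IsAlgClosed.exists_pow_nat_eq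
    (((A : AlgebraicClosure K) - L) * ((B : AlgebraicClosure K) - L)) two_pos
  have halg : ∀ z : kbar k K, IsAlgebraic k (z : AlgebraicClosure K) := fun z =>
    (mem_algebraicClosure_iff).1 z.2
  have hAL : (A : AlgebraicClosure K) ^ 2 - (L : AlgebraicClosure K) ^ 2 =
      (((r₀ - r)⁻¹ - (r₀ - l)⁻¹ : kbar k K) : AlgebraicClosure K) :=
    congrArg Subtype.val (hdiff hA2)
  have hBL : (B : AlgebraicClosure K) ^ 2 - (L : AlgebraicClosure K) ^ 2 =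
      (((r₀ - r')⁻¹ - (r₀ - l)⁻¹ : kbar k K) : AlgebraicClosure K) :=
    congrArg Subtype.val (hdiff hB2)
  have hA1 : A ^ 2 - L ^ 2 ≠ 0 := by
    rw [hdiff hA2]
    exact (map_ne_zero (toKur k K)).2 (hconst0 n2 n4)
  have hB1 : B ^ 2 - L ^ 2 ≠ 0 := by
    rw [hdiff hB2]
    exact (map_ne_zero (toKur k K)).2 (hconst0 n3 n5)
  have hwK : w' ∈ Kur k K := by
    refine w_mem_Kur A.2 B.2 L.2 hw' ?_ ?_ ?_ ?_
    · rw [hAL]; exact halg _
    · intro h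
      exact hA1 (Subtype.ext h)
    · rw [hBL]; exact halg _
    · intro h
      exact hB1 (Subtype.ext h)
  obtain ⟨w, hw⟩ : ∃ w : Kur k K, w ^ 2 = (A - L) * (B - L) := ⟨⟨w', hwK⟩, Subtype.ext hw'⟩
  have hAL0 : A - L ≠ 0 := fun h => hA1 (by linear_combination (A + L) * h)
  have hBL0 : B - L ≠ 0 := fun h => hB1 (by linear_combination (B + L) * h)
  have hw0 : w ≠ 0 := by
    rintro rfl
    rw [zero_pow two_ne_zero] at hw
    exact mul_ne_zero hAL0 hBL0 hw.symm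
  obtain ⟨e, he⟩ : ∃ e : ℤˣ, s.toHom τ w = ((e : ℤ) : Kur k K) * w := by
    refine exists_sign ?_
    rw [← map_pow, hw, map_mul, map_sub, map_sub, hTA, hTB, hTL]
    ring
  have hsq : (((e : ℤ) : kbar k K)) ^ 2 = 1 := by
    have h1 : ((e : ℤ)) ^ 2 = 1 := by
      rw [← Units.val_pow_eq_pow_val, Int.units_sq]; rfl
    rw [← Int.cast_pow, h1, Int.cast_one]
  have hodd : ∀ j : ℕ, Odd (p ^ j) := fun j => (Nat.coprime_two_left.1 hp2).pow
  have hTW := section_inv_wild s Q hp hres hγ hτ two_ne_zero hsq (map_intCast τ _)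
    (w := w) (by rw [he, map_intCast]) {w, A, B, L} (by
      intro σ j hσ hfix
      have h1 := section_fix_of_odd s hA0 (hsE hr hA2 σ hσ) (hodd j) (hfix A (by simp))
      have h2 := section_fix_of_odd s hB0 (hsE hr' hB2 σ hσ) (hodd j) (hfix B (by simp))
      have h3 := section_fix_of_odd s hL0 (hsE hl hL2 σ hσ) (hodd j) (hfix L (by simp))
      refine section_fix_of_odd s hw0 ?_ (hodd j) (hfix w (by simp))
      rw [hw, map_mul, map_sub, map_sub, h1, h2, h3])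
  rw [map_intCast] at hTW
  -- the action of `γ`
  have hγE : ∀ {E E' : Kur k K} {t t' : kbar k K}, E ^ 2 = toKur k K ((r₀ - t)⁻¹) + Z →
      E' ^ 2 = toKur k K ((r₀ - t')⁻¹) + Z → γ t = t' →
      ∃ d : ℤˣ, s.toHom γ E = ((d : ℤ) : Kur k K) * E' := by
    intro E E' t t' h1 h2 h3
    refine exists_sign ?_
    rw [← map_pow, h1, h2, map_add, section_toKur, map_inv₀, map_sub, hγ0, h3, hsZ γ hγ0]
  have hfix : ∀ {E : Kur k K} {t : kbar k K}, t ∈ R → r₀ ≠ t → t ≠ l →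
      E ^ 2 = toKur k K ((r₀ - t)⁻¹) + Z → ∀ z : Kur k K, z ^ 2 = -(E ^ 2 - L ^ 2) →
      s.toHom τ z = z := by
    intro E t h0 h1 h2 hE z hz
    refine fix_sqrt s Q hp2 hres hτ (κ := -((r₀ - t)⁻¹ - (r₀ - l)⁻¹)) ?_ ?_ ?_
    · rw [hz, hdiff hE, map_neg]
    · rw [Valuation.map_neg]
      exact hconstv h0 h1 h2
    · rw [map_neg, map_sub, hconstτ h0 hτ, hconstτ hl hτ]
  obtain ⟨d₃, hd₃⟩ := hγE hL2 hL2 hγl
  have hAB : s.toHom γ (A * B) = A * B := by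
    have hd2 : ∀ d : ℤˣ, ((d : ℤ) : Kur k K) * ((d : ℤ) : Kur k K) = 1 := by
      intro d
      rw [← Int.cast_mul, ← Units.val_mul, Int.units_mul_self]
      simp
    rcases hγr with ⟨h1, h2⟩ | ⟨h1, h2⟩
    · obtain ⟨d₁, hd₁⟩ := hγE hA2 hA2 h1
      obtain ⟨d₂, hd₂⟩ := hγE hB2 hB2 h2
      have h3 : d₁ = d₂ := by
        refine sign_core (s.toHom τ : Kur k K →+* Kur k K) (a := A) (b := B) (c := L) (w := w)
          (W := s.toHom γ w) (e := e) (d₃ := d₃) hTA hTB hTL hw ?_ he hTW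
          (hfix hr n2 n4 hA2) (hfix hr' n3 n5 hB2) hA1 hB1
        rw [← map_pow, hw, map_mul, map_sub, map_sub, hd₁, hd₂, hd₃]
      rw [map_mul, hd₁, hd₂, h3]
      calc _ = (((d₂ : ℤ) : Kur k K) * ((d₂ : ℤ) : Kur k K)) * (A * B) := by ring
        _ = _ := by rw [hd2, one_mul]
    · obtain ⟨d₁, hd₁⟩ := hγE hA2 hB2 h1
      obtain ⟨d₂, hd₂⟩ := hγE hB2 hA2 h2
      have h3 : d₁ = d₂ := by
        refine sign_core (s.toHom τ : Kur k K →+* Kur k K) (a := B) (b := A) (c := L) (w := w)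
          (W := s.toHom γ w) (e := e) (d₃ := d₃) hTB hTA hTL (by rw [hw, mul_comm]) ?_ he hTW
          (hfix hr' n3 n5 hB2) (hfix hr n2 n4 hA2) hB1 hA1
        rw [← map_pow, hw, map_mul, map_sub, map_sub, hd₁, hd₂, hd₃]
      rw [map_mul, hd₁, hd₂, h3]
      calc _ = (((d₂ : ℤ) : Kur k K) * ((d₂ : ℤ) : Kur k K)) * (A * B) := by ring
        _ = _ := by rw [hd2, one_mul]
  -- conclusion
  have hX : algebraMap K (AlgebraicClosure K) x - (r₀ : AlgebraicClosure K) ≠ 0 := by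
    rw [← hv]
    exact pow_ne_zero 2 (hv0 _)
  have hρ0 : ∀ {t ρt : kbar k K}, r₀ ≠ t → ρt ^ 2 = r₀ - t → (ρt : AlgebraicClosure K) ≠ 0 := by
    intro t ρt h1 h2 h3
    have h4 : ρt = 0 := Subtype.ext h3
    rw [h4, zero_pow two_ne_zero, eq_comm, sub_eq_zero] at h2
    exact h1 h2
  have hgAB : g = (algebraMap K (Kur k K) x - toKur k K r₀) * (A * B) := by
    apply Subtype.ext
    change (g : AlgebraicClosure K) = (algebraMap K (AlgebraicClosure K) x -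
      (r₀ : AlgebraicClosure K)) * ((A : AlgebraicClosure K) * (B : AlgebraicClosure K))
    have h1 := hρ0 n2 hρ
    have h2 := hρ0 n3 hρ'
    have h3 := hv r₀
    rw [hA, hB]
    field_simp
    rw [h3]
    linear_combination (algebraMap K (AlgebraicClosure K) x - (r₀ : AlgebraicClosure K)) * hg
  rw [hgAB, map_mul, hAB, map_sub, AlgEquiv.commutes, section_toKur, hγ0]

end

end Pool.Agent.HP
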