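import Pool.Agent.Helper45.HP.Tangent

/-!
# Sign characters are given by square roots of constants
-/

set_option autoImplicit false

universe u

namespace Pool.Agent.HP

open Polynomial Pool.Agent.Helper91.Sect

section

variable {k K : Type u} [Field k] [Field K] [Algebra k K] [CharZero k]

theorem exists_twist (s : GaloisSection k K) {W : Kur k K} (hW0 : W ≠ 0)
    (hW : ∀ g : Gk k K, s.toHom g W = W ∨ s.toHom g W = -W) :
    ∃ z : kbar k K, z ≠ 0 ∧ (∃ e : k, algebraMap k (kbar k K) e = z ^ 2) ∧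
      ∀ g : Gk k K, s.toHom g (toKur k K z * W) = toKur k K z * W := by
  classical
  have hcz : CharZero (Kur k K) :=
    charZero_of_injective_algebraMap ((algebraMap K (Kur k K)).comp (algebraMap k K)).injective
  have hne : -W ≠ W := by
    intro h
    have h1 : 2 * W = 0 := by linear_combination -h
    exact hW0 ((mul_eq_zero.1 h1).resolve_left two_ne_zero)
  by_cases hall : ∀ g : Gk k K, s.toHom g W = W
  · refine ⟨1, one_ne_zero, ⟨1, by simp⟩, fun g => ?_⟩
    rw [map_one, one_mul, hall g]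
  push Not at hall
  obtain ⟨g₀, hg₀⟩ := hall
  have hg₀W : s.toHom g₀ W = -W := (hW g₀).resolve_left hg₀
  set H : Subgroup (Gk k K) := (MulAction.stabilizer (Pi1 k K) W).comap s.toHom with hH
  have hmem : ∀ g : Gk k K, g ∈ H ↔ s.toHom g W = W := fun g => Iff.rfl
  have hopen : IsOpen (H : Set (Gk k K)) := by
    have h1 := stabilizer_isOpen_of_isIntegral (K := K) (L := Kur k K) W
    exact h1.preimage s.continuous_toHom
  have hclosed : IsClosed (H : Set (Gk k K)) := H.isClosed_of_isOpen hopen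
  let HC : ClosedSubgroup (Gk k K) := ⟨H, hclosed⟩
  have hfix := InfiniteGalois.fixingSubgroup_fixedField HC
  have hg₀H : g₀ ∉ H := fun h => hg₀ ((hmem g₀).1 h)
  obtain ⟨u, hu, hgu⟩ : ∃ u ∈ IntermediateField.fixedField H, g₀ u ≠ u := by
    by_contra hcon
    push Not at hcon
    apply hg₀H
    have h1 : g₀ ∈ (IntermediateField.fixedField (HC : Subgroup (Gk k K))).fixingSubgroup := by
      rw [IntermediateField.mem_fixingSubgroup_iff]
      exact fun z hz => hcon z hz
    rw [hfix] at h1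
    exact h1
  have huH : ∀ g ∈ H, g u = u := by
    intro g hg
    rw [IntermediateField.mem_fixedField_iff] at hu
    exact hu g hg
  have hinv : ∀ g : Gk k K, s.toHom g W = -W → s.toHom g⁻¹ W = -W := by
    intro g hg
    have h1 : s.toHom g⁻¹ (s.toHom g W) = W := by
      rw [← AlgEquiv.mul_apply, ← map_mul s.toHom, inv_mul_cancel, map_one]
      rfl
    rw [hg, map_neg] at h1
    exact neg_eq_iff_eq_neg.1 h1
  have hgg : g₀ * g₀ ∈ H := by
    rw [hmem, map_mul s.toHom, AlgEquiv.mul_apply, hg₀W, map_neg, hg₀W, neg_neg]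
  obtain ⟨z, hz⟩ : ∃ z : kbar k K, z = u - g₀ u := ⟨_, rfl⟩
  have hz0 : z ≠ 0 := by
    rw [hz]
    exact sub_ne_zero.2 hgu.symm
  have hzH : ∀ g ∈ H, g z = z := by
    intro g hg
    have h1 : g₀⁻¹ * g * g₀ ∈ H := by
      rw [hmem, map_mul s.toHom, map_mul s.toHom, AlgEquiv.mul_apply, AlgEquiv.mul_apply, hg₀W,
        map_neg, (hmem g).1 hg, map_neg, hinv g₀ hg₀W, neg_neg]
    have h2 : g (g₀ u) = g₀ u := by
      have h3 := huH _ h1
      have h4 : g₀ ((g₀⁻¹ * g * g₀) u) = g (g₀ u) := by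
        rw [← AlgEquiv.mul_apply, ← AlgEquiv.mul_apply]
        congr 1
        group
      rw [← h4, h3]
    rw [hz, map_sub, huH g hg, h2]
  have hz₀ : g₀ z = -z := by
    have h1 : g₀ (g₀ u) = u := huH _ hgg
    rw [hz, map_sub, h1]
    ring
  have hact : ∀ g : Gk k K, s.toHom g W = -W → g z = -z := by
    intro g hg
    have h1 : g₀⁻¹ * g ∈ H := by
      rw [hmem, map_mul s.toHom, AlgEquiv.mul_apply, hg, map_neg, hinv g₀ hg₀W, neg_neg]
    have h2 : g = g₀ * (g₀⁻¹ * g) := by group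
    rw [h2, AlgEquiv.mul_apply, hzH _ h1, hz₀]
  refine ⟨z, hz0, ?_, ?_⟩
  · have h1 := (InfiniteGalois.mem_range_algebraMap_iff_fixed (k := k) (z ^ 2)).2 (by
      intro g
      rw [map_pow]
      rcases hW g with h | h
      · rw [hzH g h]
      · rw [hact g h, neg_sq])
    obtain ⟨e, he⟩ := h1
    exact ⟨e, he⟩
  · intro g
    rw [map_mul, section_toKur]
    rcases hW g with h | h
    · rw [hzH g h, h]
    · rw [hact g h, h, map_neg]
      ring

end

/-- rational numbers modulo squares -/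
theorem exists_squarefree (e : ℚ) (he : e ≠ 0) :
    ∃ D : ℤ, Squarefree D ∧ ∃ t : ℚ, t ≠ 0 ∧ e = D * t ^ 2 := by
  obtain ⟨N, hN⟩ : ∃ N : ℤ, N = e.num * e.den := ⟨_, rfl⟩
  obtain ⟨d, hd⟩ : ∃ d : ℕ, d = e.den := ⟨_, rfl⟩
  have hd0 : (d : ℚ) ≠ 0 := by
    rw [hd]
    exact_mod_cast e.den_ne_zero
  have hn : N ≠ 0 := by
    rw [hN]
    exact mul_ne_zero (Rat.num_ne_zero.2 he) (by exact_mod_cast e.den_ne_zero)
  have he' : e = (N : ℚ) / (d : ℚ) ^ 2 := by
    have h3 : e * e.den = e.num := Rat.mul_den_eq_num e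
    rw [← hd] at h3
    rw [hN, ← hd]
    push_cast
    rw [← h3]
    field_simp
  obtain ⟨a, b, hab, ha⟩ := Nat.sq_mul_squarefree N.natAbs
  have hb : b ≠ 0 := by
    rintro rfl
    rw [zero_pow two_ne_zero, zero_mul] at hab
    exact hn (Int.natAbs_eq_zero.1 hab.symm)
  have hb' : (b : ℚ) ≠ 0 := by exact_mod_cast hb
  refine ⟨N.sign * a, ?_, b / d, div_ne_zero hb' hd0, ?_⟩
  · rw [← Int.squarefree_natAbs, Int.natAbs_mul, Int.natAbs_sign_of_ne_zero hn, one_mul,
      Int.natAbs_natCast]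
    exact ha
  · have h1 : (N : ℚ) = (N.sign : ℚ) * (b ^ 2 * a : ℚ) := by
      have h2 := Int.sign_mul_natAbs N
      rw [← hab] at h2
      calc (N : ℚ) = ((N.sign * ((b ^ 2 * a : ℕ) : ℤ) : ℤ) : ℚ) := by rw [h2]
        _ = _ := by push_cast; ring
    rw [he']
    calc (N : ℚ) / (d : ℚ) ^ 2 = (N.sign : ℚ) * (b ^ 2 * a : ℚ) / (d : ℚ) ^ 2 := by rw [← h1]
      _ = _ := by push_cast; field_simp

end Pool.Agent.HP
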